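import Mathlib

set_option autoImplicit false

/-!
Definitions for `MP_9dd57a_co`: list colouring, jump, and embeddings in orientable surfaces through
rotation systems.
-/

namespace Pool.Agent.H29.Tor

/-- `G` is `k`-choosable: whenever every vertex `v` has a list `L v` of at least `k` colours, there is
a proper colouring of `G` in which every vertex has a colour from its list. -/
def Choosable {V : Type*} (G : SimpleGraph V) (k : ℕ) : Prop :=
  ∀ L : V → Finset ℕ, (∀ v, k ≤ (L v).card) →
    ∃ c : V → ℕ, (∀ v, c v ∈ L v) ∧ ∀ v w, G.Adj v w → c v ≠ c w

/-- The list chromatic number (choice number) of `G`: the least `k` such that `G` is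
`k`-choosable. -/
noncomputable def choiceNumber {V : Type*} (G : SimpleGraph V) : ℕ := sInf {k | Choosable G k}

/-- The jump `ch(G) - χ(G)`, as an integer. -/
noncomputable def jump {V : Type*} (G : SimpleGraph V) : ℤ :=
  (choiceNumber G : ℤ) - (G.chromaticNumber.toNat : ℤ)

/-- A rotation system of `G`: a permutation `next` of the darts (oriented edges) which, at every
vertex, permutes the darts leaving that vertex cyclically. -/
structure RotationSystem {V : Type*} (G : SimpleGraph V) where
  /-- the dart following a given one in the rotation at its first vertex -/
  next : Equiv.Perm G.Dart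
  /-- `next` keeps the first vertex -/
  fst_next : ∀ d, (next d).fst = d.fst
  /-- the darts leaving a vertex form one cycle of `next` -/
  cyclic : ∀ d d' : G.Dart, d.fst = d'.fst → ∃ n : ℕ, (next ^ n) d = d'

/-- The permutation of the darts which walks along the faces: reverse the dart, then take the next
dart in the rotation. The facial walks are the cycles of this permutation. -/
def RotationSystem.faceStep {V : Type*} {G : SimpleGraph V} (R : RotationSystem G) :
    Equiv.Perm G.Dart :=
  R.next * Function.Involutive.toPerm SimpleGraph.Dart.symm SimpleGraph.Dart.symm_involutive

/-- The number of faces: the number of facial walks, an isolated vertex having one face. -/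
noncomputable def RotationSystem.numFaces {V : Type*} {G : SimpleGraph V}
    (R : RotationSystem G) : ℕ :=
  Nat.card (Quotient (Equiv.Perm.SameCycle.setoid R.faceStep)) +
    Nat.card {v : V // ∀ w, ¬ G.Adj v w}

/-- The sum of the genera of the connected components of the finite graph `G`, each embedded in a
closed orientable surface by the rotation system `R`, is at most `g`. Here Euler's formula
`|V_i| - |E_i| + |F_i| = 2 - 2 g_i` for the components is added up over all components. -/
def RotationSystem.GenusLE {V : Type*} {G : SimpleGraph V} (R : RotationSystem G) (g : ℕ) : Prop :=
  2 * (Nat.card G.ConnectedComponent : ℤ) - 2 * g ≤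
    (Nat.card V : ℤ) - Nat.card G.edgeSet + R.numFaces

/-- The finite graph `G` is planar: it has a rotation system of genus `0`. -/
def IsPlanar {V : Type*} (G : SimpleGraph V) : Prop := ∃ R : RotationSystem G, R.GenusLE 0

/-- The finite graph `G` is toroidal: it has a rotation system of genus at most `1`. -/
def IsToroidal {V : Type*} (G : SimpleGraph V) : Prop := ∃ R : RotationSystem G, R.GenusLE 1

end Pool.Agent.H29.Tor
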