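import Pool.Agent.H29.Tor.Graph

set_option autoImplicit false

namespace Pool.Agent.H29.Tor

/-- Extension of a colour `γ` of the middle vertex to one of the two four-cycles of the core. -/
def Ext (A B C : Finset ℕ) (e1 e2 : Prop) (γ : ℕ) : Prop :=
  ∃ p ∈ A, ∃ q ∈ B, ∃ r ∈ C, (e1 → p ≠ γ) ∧ (e2 → r ≠ γ) ∧ p ≠ q ∧ q ≠ r

theorem ext_of_good {A B C : Finset ℕ} {e1 e2 : Prop} {γ : ℕ} (h : PathGood A B C γ) :
    Ext A B C e1 e2 γ := by
  obtain ⟨p, hp, q, hq, r, hr, h1, h2, h3, h4⟩ := h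
  exact ⟨p, hp, q, hq, r, hr, fun _ => h1, fun _ => h2, h3, h4⟩

theorem ext_slack {A B C : Finset ℕ} {e1 e2 : Prop} (hA : 2 ≤ A.card) (hB : 2 ≤ B.card)
    (hC : 2 ≤ C.card) (h : 3 ≤ A.card ∨ 3 ≤ C.card ∨ ¬ e1 ∨ ¬ e2) (γ : ℕ) :
    Ext A B C e1 e2 γ := by
  rcases h with h | h | h | h
  · exact ext_of_good (path_three hA hB hC (Or.inl h) γ)
  · exact ext_of_good (path_three hA hB hC (Or.inr h) γ)
  · obtain ⟨r, hr, hrγ⟩ := exists_ne_of_two hC γ
    obtain ⟨q, hq, hqr⟩ := exists_ne_of_two hB r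
    obtain ⟨p, hp, hpq⟩ := exists_ne_of_two hA q
    exact ⟨p, hp, q, hq, r, hr, fun h' => absurd h' h, fun _ => hrγ, hpq, hqr⟩
  · obtain ⟨p, hp, hpγ⟩ := exists_ne_of_two hA γ
    obtain ⟨q, hq, hqp⟩ := exists_ne_of_two hB p
    obtain ⟨r, hr, hrq⟩ := exists_ne_of_two hC q
    exact ⟨p, hp, q, hq, r, hr, fun _ => hpγ, fun h' => absurd h' h, hqp.symm, hrq.symm⟩

theorem ext_one {A B C : Finset ℕ} {e1 e2 : Prop} (hA : 2 ≤ A.card) (hB : 2 ≤ B.card)
    (hC : 2 ≤ C.card) {γ γ' : ℕ} (hne : γ ≠ γ') : Ext A B C e1 e2 γ ∨ Ext A B C e1 e2 γ' := by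
  rcases path_one hA hB hC hne with h | h
  · exact Or.inl (ext_of_good h)
  · exact Or.inr (ext_of_good h)

open Classical in
/-- The colours left at `w` once `u`, `v` are coloured `a`, `b`. -/
noncomputable def resid (L : Finset ℕ) (eu ev : Prop) (a b : ℕ) : Finset ℕ :=
  L.filter (fun z => (eu → z ≠ a) ∧ (ev → z ≠ b))

theorem resid_two (L : Finset ℕ) (h : 4 ≤ L.card) (eu ev : Prop) (a b : ℕ) :
    2 ≤ (resid L eu ev a b).card := by
  refine le_trans (card_sdiff_pair L h a b) (Finset.card_le_card ?_)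
  intro z hz
  simp only [Finset.mem_sdiff, Finset.mem_insert, Finset.mem_singleton, not_or] at hz
  simp only [resid, Finset.mem_filter]
  exact ⟨hz.1, fun _ => hz.2.1, fun _ => hz.2.2⟩

theorem resid_three (L : Finset ℕ) (h : 4 ≤ L.card) (eu ev : Prop) (a b : ℕ)
    (he : ¬ eu ∨ ¬ ev) : 3 ≤ (resid L eu ev a b).card := by
  rcases he with he | he
  · have h1 := Finset.pred_card_le_card_erase (s := L) (a := b)
    have h2 : (L.erase b).card ≤ (resid L eu ev a b).card := by
      apply Finset.card_le_card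
      intro z hz
      rw [Finset.mem_erase] at hz
      simp only [resid, Finset.mem_filter]
      exact ⟨hz.2, fun h' => absurd h' he, fun _ => hz.1⟩
    omega
  · have h1 := Finset.pred_card_le_card_erase (s := L) (a := a)
    have h2 : (L.erase a).card ≤ (resid L eu ev a b).card := by
      apply Finset.card_le_card
      intro z hz
      rw [Finset.mem_erase] at hz
      simp only [resid, Finset.mem_filter]
      exact ⟨hz.2, fun _ => hz.1, fun h' => absurd h' he⟩
    omega

/-- The nine edges of the core which form a complete bipartite graph `K_{3,3}`. -/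
def Full33 (E : Fin 9 → Fin 9 → Prop) : Prop :=
  (E 0 3 ∧ E 0 5 ∧ E 0 6) ∧ (E 1 3 ∧ E 1 5 ∧ E 1 6) ∧ (E 2 3 ∧ E 2 5 ∧ E 2 6)

theorem core_extend (L : Fin 9 → Finset ℕ) (hL : ∀ w, 4 ≤ (L w).card)
    (E : Fin 9 → Fin 9 → Prop) (hE : ∀ p q, E p q → E q p) (hmiss : ¬ Full33 E) (a b : ℕ) :
    ∃ f : Fin 9 → ℕ, f 0 = a ∧ f 1 = b ∧ (∀ w : Fin 9, 2 ≤ w.val → f w ∈ L w) ∧
      ∀ p q, adjC p q = true → E p q → f p ≠ f q := by
  have h2 : ∀ w, 2 ≤ (resid (L w) (E 0 w) (E 1 w) a b).card := fun w => resid_two _ (hL w) _ _ _ _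
  have h3 : ∀ w, (¬ E 0 w ∨ ¬ E 1 w) → 3 ≤ (resid (L w) (E 0 w) (E 1 w) a b).card :=
    fun w h => resid_three _ (hL w) _ _ _ _ h
  have key : ∃ γ ∈ resid (L 2) (E 0 2) (E 1 2) a b,
      Ext (resid (L 3) (E 0 3) (E 1 3) a b) (resid (L 4) (E 0 4) (E 1 4) a b)
        (resid (L 5) (E 0 5) (E 1 5) a b) (E 2 3) (E 2 5) γ ∧
      Ext (resid (L 6) (E 0 6) (E 1 6) a b) (resid (L 7) (E 0 7) (E 1 7) a b)
        (resid (L 8) (E 0 8) (E 1 8) a b) (E 2 6) (E 2 8) γ := by
    obtain ⟨γ, hγ, _⟩ := exists_ne_of_two (h2 2) 0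
    obtain ⟨γ', hγ', hne⟩ := exists_ne_of_two (h2 2) γ
    by_cases hc : (¬ E 0 3 ∨ ¬ E 1 3) ∨ (¬ E 0 5 ∨ ¬ E 1 5) ∨ ¬ E 2 3 ∨ ¬ E 2 5
    · have hc' := hc.imp (h3 3) (Or.imp_left (h3 5))
      rcases ext_one (e1 := E 2 6) (e2 := E 2 8) (h2 6) (h2 7) (h2 8) hne.symm with h | h
      · exact ⟨γ, hγ, ext_slack (h2 3) (h2 4) (h2 5) hc' γ, h⟩
      · exact ⟨γ', hγ', ext_slack (h2 3) (h2 4) (h2 5) hc' γ', h⟩
    · have hd : (¬ E 0 6 ∨ ¬ E 1 6) ∨ ¬ E 2 6 := by
        by_contra hcon
        apply hmiss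
        unfold Full33
        tauto
      have hd' := hd.imp (h3 6) (fun h => (Or.inr (Or.inl h) :
        3 ≤ (resid (L 8) (E 0 8) (E 1 8) a b).card ∨ ¬ E 2 6 ∨ ¬ E 2 8))
      rcases ext_one (e1 := E 2 3) (e2 := E 2 5) (h2 3) (h2 4) (h2 5) hne.symm with h | h
      · exact ⟨γ, hγ, h, ext_slack (h2 6) (h2 7) (h2 8) hd' γ⟩
      · exact ⟨γ', hγ', h, ext_slack (h2 6) (h2 7) (h2 8) hd' γ'⟩
  obtain ⟨γ, hγ, ⟨p, hp, q, hq, r, hr, h23, h25, h34, h45⟩,
    ⟨p', hp', q', hq', r', hr', h26, h28, h67, h78⟩⟩ := key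
  simp only [resid, Finset.mem_filter] at hγ hp hq hr hp' hq' hr'
  refine ⟨![a, b, γ, p, q, r, p', q', r'], rfl, rfl, ?_, ?_⟩
  · intro w hw
    fin_cases w
    · exact absurd hw (by decide)
    · exact absurd hw (by decide)
    · exact hγ.1
    · exact hp.1
    · exact hq.1
    · exact hr.1
    · exact hp'.1
    · exact hq'.1
    · exact hr'.1
  · have half : ∀ s t : Fin 9, s < t → adjC s t = true → E s t →
        (![a, b, γ, p, q, r, p', q', r'] : Fin 9 → ℕ) s ≠
          (![a, b, γ, p, q, r, p', q', r'] : Fin 9 → ℕ) t := by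
      intro s t hst hadj hEst
      fin_cases s <;> fin_cases t <;>
        first
          | exact absurd hst (by decide)
          | exact absurd hadj (by decide)
          | exact (hγ.2.1 hEst).symm
          | exact (hp.2.1 hEst).symm
          | exact (hq.2.1 hEst).symm
          | exact (hr.2.1 hEst).symm
          | exact (hp'.2.1 hEst).symm
          | exact (hq'.2.1 hEst).symm
          | exact (hr'.2.1 hEst).symm
          | exact (hγ.2.2 hEst).symm
          | exact (hp.2.2 hEst).symm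
          | exact (hq.2.2 hEst).symm
          | exact (hr.2.2 hEst).symm
          | exact (hp'.2.2 hEst).symm
          | exact (hq'.2.2 hEst).symm
          | exact (hr'.2.2 hEst).symm
          | exact (h23 hEst).symm
          | exact (h25 hEst).symm
          | exact (h26 hEst).symm
          | exact (h28 hEst).symm
          | exact h34
          | exact h45
          | exact h67
          | exact h78
    intro s t hadj hEst
    rcases lt_trichotomy s t with h | h | h
    · exact half s t h hadj hEst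
    · subst h
      rw [adjC_irrefl] at hadj
      exact absurd hadj (by decide)
    · exact (half t s h (by rw [adjC_symm]; exact hadj) (hE _ _ hEst)).symm

theorem gadget_extend (L : Fin 8 → Finset ℕ) (hL : ∀ w, 4 ≤ (L w).card) :
    ∃ a0 b0 : ℕ, ∀ a b : ℕ, (a ≠ a0 ∨ b ≠ b0) → ∃ g : Fin 8 → ℕ, (∀ w, g w ∈ L w) ∧
      ∀ j k : Fin 10, adjK j k = true →
        (![a, b, g 0, g 1, g 2, g 3, g 4, g 5, g 6, g 7] : Fin 10 → ℕ) j ≠
          (![a, b, g 0, g 1, g 2, g 3, g 4, g 5, g 6, g 7] : Fin 10 → ℕ) k := by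
  obtain ⟨a0, b0, h⟩ := gadget_core (L 0) (L 1) (L 2) (L 3) (L 4) (L 5) (L 6) (L 7) (hL 0) (hL 1)
    (hL 2) (hL 3) (hL 4) (hL 5) (hL 6) (hL 7)
  refine ⟨a0, b0, fun a b hab => ?_⟩
  obtain ⟨α, hα, β, hβ, n1, n2, n3, n4, n5, ⟨p, hp, q, hq, r, hr, u1, u2, u3, u4, u5, u6, u7, u8, u9⟩,
    ⟨p', hp', q', hq', r', hr', v1, v2, v3, v4, v5, v6, v7, v8, v9⟩⟩ := h a b hab
  refine ⟨![α, β, p, q, r, p', q', r'], ?_, ?_⟩
  · intro w
    fin_cases w
    · exact hα
    · exact hβ
    · exact hp
    · exact hq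
    · exact hr
    · exact hp'
    · exact hq'
    · exact hr'
  · have half : ∀ s t : Fin 10, s < t → adjK s t = true →
        (![a, b, α, β, p, q, r, p', q', r'] : Fin 10 → ℕ) s ≠
          (![a, b, α, β, p, q, r, p', q', r'] : Fin 10 → ℕ) t := by
      intro s t hst hadj
      fin_cases s <;> fin_cases t <;>
        first
          | exact absurd hst (by decide)
          | exact absurd hadj (by decide)
          | exact Ne.symm n1
          | exact Ne.symm n2
          | exact Ne.symm n3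
          | exact Ne.symm n4
          | exact n5
          | exact Ne.symm u1
          | exact Ne.symm u2
          | exact Ne.symm u3
          | exact Ne.symm u4
          | exact Ne.symm u5
          | exact Ne.symm u6
          | exact u7
          | exact u8
          | exact u9
          | exact Ne.symm v1
          | exact Ne.symm v2
          | exact Ne.symm v3
          | exact Ne.symm v4
          | exact Ne.symm v5
          | exact Ne.symm v6
          | exact v7
          | exact v8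
          | exact v9
    intro s t hadj
    rcases lt_trichotomy s t with h | h | h
    · exact half s t h hadj
    · subst h
      rw [adjK_irrefl] at hadj
      exact absurd hadj (by decide)
    · exact (half t s h (by rw [adjK_symm]; exact hadj)).symm

/-- A subgraph which misses an edge of the `K_{3,3}` in the core is 4-choosable. -/
theorem choosable_four (H : SimpleGraph Vx) (hH : H ≤ TG)
    (hmiss : ¬ Full33 (fun p q => H.Adj (.inl p) (.inl q))) : Choosable H 4 := by
  intro L hL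
  have hg := fun i : Fin 15 => gadget_extend (fun j => L (.inr (i, j))) (fun j => hL _)
  choose a0 b0 hg using hg
  obtain ⟨x, hx, hxn⟩ : ∃ x ∈ L (.inl 0) ×ˢ L (.inl 1),
      x ∉ (Finset.univ : Finset (Fin 15)).image (fun i => (a0 i, b0 i)) := by
    apply Finset.exists_mem_notMem_of_card_lt_card
    have h1 : ((Finset.univ : Finset (Fin 15)).image (fun i => (a0 i, b0 i))).card ≤ 15 := by
      refine le_trans Finset.card_image_le ?_
      simp
    have h2 : 16 ≤ (L (.inl 0) ×ˢ L (.inl 1)).card := by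
      rw [Finset.card_product]
      exact le_trans (by norm_num) (Nat.mul_le_mul (hL (.inl 0)) (hL (.inl 1)))
    omega
  rw [Finset.mem_product] at hx
  obtain ⟨a, b⟩ := x
  simp only at hx
  have hne : ∀ i, a ≠ a0 i ∨ b ≠ b0 i := by
    intro i
    by_contra hcon
    push Not at hcon
    apply hxn
    rw [Finset.mem_image]
    exact ⟨i, Finset.mem_univ _, by rw [hcon.1, hcon.2]⟩
  have hg' := fun i => hg i a b (hne i)
  choose g hgL hgadj using hg'
  obtain ⟨f, f0, f1, fL, fadj⟩ := core_extend (fun w => L (.inl w)) (fun w => hL _)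
    (fun p q => H.Adj (.inl p) (.inl q)) (fun p q h => h.symm) hmiss a b
  refine ⟨Sum.elim f (fun p => g p.1 p.2), ?_, ?_⟩
  · rintro (w | ⟨i, j⟩)
    · simp only [Sum.elim_inl]
      by_cases hw : 2 ≤ w.val
      · exact fL w hw
      · have : w = 0 ∨ w = 1 := by
          revert hw; revert w; decide
        rcases this with rfl | rfl
        · rw [f0]; exact hx.1
        · rw [f1]; exact hx.2
    · exact hgL i j
  · intro v w hvw
    rcases hH hvw with ⟨c, d, h, rfl, rfl⟩ | ⟨i, j, k, h, rfl, rfl⟩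
    · exact fadj c d h hvw
    · have hk : ∀ j : Fin 10, Sum.elim f (fun p => g p.1 p.2) (kap i j) =
          (![a, b, g i 0, g i 1, g i 2, g i 3, g i 4, g i 5, g i 6, g i 7] : Fin 10 → ℕ) j := by
        intro j
        fin_cases j
        · exact f0
        · exact f1
        all_goals rfl
      rw [hk, hk]
      exact hgadj i j k h

end Pool.Agent.H29.Tor
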