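import Pool.Agent.H29.Tor.Euler

set_option autoImplicit false

/-!
A graph containing `K_{3,3}` has no rotation system of genus `0`.
-/

namespace Pool.Agent.H29.Tor

open SimpleGraph

variable {V : Type*} {G : SimpleGraph V}

open Classical in
/-- indicator of the edge `ab` -/
noncomputable def ind (a b : V) (e : Sym2 V) : ZMod 2 := if e = s(a, b) then 1 else 0

theorem ind_comm (a b : V) (e : Sym2 V) : ind a b e = ind b a e := by
  unfold ind
  rw [Sym2.eq_swap]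

theorem ind_self (a b : V) : ind a b s(a, b) = 1 := by
  unfold ind
  rw [if_pos rfl]

theorem ind_other {a b c d : V} (h1 : c ≠ a) (h2 : c ≠ b) : ind a b s(c, d) = 0 := by
  unfold ind
  rw [if_neg]
  rw [Sym2.eq_iff]
  rintro (⟨h, _⟩ | ⟨h, _⟩)
  · exact h1 h
  · exact h2 h

theorem ind_other' {a b c : V} (h1 : c ≠ b) (hab : a ≠ b) : ind a b s(a, c) = 0 := by
  unfold ind
  rw [if_neg]
  rw [Sym2.eq_iff]
  rintro (⟨_, h⟩ | ⟨h, _⟩)
  · exact h1 h
  · exact hab h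

/-- the four-cycle `a b c d` -/
noncomputable def cyc4 (a b c d : V) (e : Sym2 V) : ZMod 2 :=
  ind a b e + ind b c e + ind c d e + ind d a e

theorem single_eq_ind [DecidableEq G.edgeSet] {a b : V} (hab : s(a, b) ∈ G.edgeSet)
    (e : G.edgeSet) :
    (Pi.single (⟨s(a, b), hab⟩ : G.edgeSet) (1 : ZMod 2) : G.edgeSet → ZMod 2) e =
      ind a b e.1 := by
  rw [Pi.single_apply]
  unfold ind
  by_cases h : e.1 = s(a, b)
  · rw [if_pos h, if_pos (Subtype.ext h)]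
  · rw [if_neg h, if_neg (fun h' => h (by rw [h']))]

theorem exists_cyc4 [Finite V] (R : RotationSystem G) (hR : R.GenusLE 0) {a b c d : V}
    (hab : G.Adj a b) (hbc : G.Adj b c) (hcd : G.Adj c d) (hda : G.Adj d a) :
    ∃ Q : G.Dart → ZMod 2, Sol R (fun x => cyc4 a b c d x.edge) Q := by
  classical
  have : Fintype V := Fintype.ofFinite V
  let z : G.edgeSet → ZMod 2 := Pi.single ⟨s(a, b), hab⟩ 1 + Pi.single ⟨s(b, c), hbc⟩ 1 +
    Pi.single ⟨s(c, d), hcd⟩ 1 + Pi.single ⟨s(d, a), hda⟩ 1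
  have hz : bdry G z = 0 := by
    have h1 := bdry_single (⟨(a, b), hab⟩ : G.Dart)
    have h2 := bdry_single (⟨(b, c), hbc⟩ : G.Dart)
    have h3 := bdry_single (⟨(c, d), hcd⟩ : G.Dart)
    have h4 := bdry_single (⟨(d, a), hda⟩ : G.Dart)
    have e : bdry G z = (Pi.single a 1 + Pi.single b 1) + (Pi.single b 1 + Pi.single c 1) +
        (Pi.single c 1 + Pi.single d 1) + (Pi.single d 1 + Pi.single a 1) := by
      change bdry G (_ + _ + _ + _) = _
      rw [map_add, map_add, map_add]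
      exact congrArg₂ _ (congrArg₂ _ (congrArg₂ _ h1 h2) h3) h4
    rw [e]
    funext v
    simp only [Pi.add_apply, Pi.zero_apply]
    have k := fun x : ZMod 2 => zmod2_add_self x
    generalize (Pi.single a (1 : ZMod 2) : V → ZMod 2) v = p
    generalize (Pi.single b (1 : ZMod 2) : V → ZMod 2) v = q
    generalize (Pi.single c (1 : ZMod 2) : V → ZMod 2) v = r
    generalize (Pi.single d (1 : ZMod 2) : V → ZMod 2) v = s
    revert p q r s
    decide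
  obtain ⟨Q, hQ⟩ := exists_sol R hR z hz
  refine ⟨Q, ?_⟩
  have : (fun x : G.Dart => cyc4 a b c d x.edge) = fun x => z ⟨x.edge, x.edge_mem⟩ := by
    funext x
    exact (congrArg₂ (· + ·) (congrArg₂ (· + ·) (congrArg₂ (· + ·)
      (single_eq_ind (G := G) hab ⟨x.edge, x.edge_mem⟩)
      (single_eq_ind (G := G) hbc ⟨x.edge, x.edge_mem⟩))
      (single_eq_ind (G := G) hcd ⟨x.edge, x.edge_mem⟩))
      (single_eq_ind (G := G) hda ⟨x.edge, x.edge_mem⟩)).symm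
  rw [this]
  exact hQ

theorem Sol.add {R : RotationSystem G} {z z' Q Q' : G.Dart → ZMod 2} (h : Sol R z Q)
    (h' : Sol R z' Q') : Sol R (fun d => z d + z' d) (fun d => Q d + Q' d) := by
  intro d
  refine ⟨?_, ?_⟩
  · simp only
    rw [(h d).1, (h' d).1]
    ring
  · simp only
    rw [(h d).2, (h' d).2]

theorem Sol.iter {R : RotationSystem G} {z Q : G.Dart → ZMod 2} (h : Sol R z Q) (d : G.Dart)
    (i j : ℕ) (hij : i ≤ j) (hz : ∀ k, i ≤ k → k < j → z ((R.next ^ k) d) = 0) :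
    Q ((R.next ^ j) d) = Q ((R.next ^ i) d) := by
  induction j, hij using Nat.le_induction with
  | base => rfl
  | succ j hj ih =>
    rw [pow_succ', Equiv.Perm.mul_apply, (h _).2, (h _).1, hz j hj (Nat.lt_succ_self j), add_zero]
    exact ih (fun k h1 h2 => hz k h1 (Nat.lt_succ_of_lt h2))

theorem Sol.next {R : RotationSystem G} {z Q : G.Dart → ZMod 2} (h : Sol R z Q) (d : G.Dart) :
    Q (R.next d) = Q d + z d := by rw [(h d).2, (h d).1]

theorem next_pow_fst (R : RotationSystem G) (n : ℕ) (d : G.Dart) :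
    ((R.next ^ n) d).fst = d.fst := by
  induction n with
  | zero => rfl
  | succ n ih => rw [pow_succ', Equiv.Perm.mul_apply, R.fst_next, ih]

theorem Sol.const {R : RotationSystem G} {z Q : G.Dart → ZMod 2} (h : Sol R z Q) {v : V}
    (hz : ∀ d : G.Dart, d.fst = v → z d = 0) {d d' : G.Dart} (hd : d.fst = v)
    (hd' : d'.fst = v) : Q d = Q d' := by
  obtain ⟨n, hn⟩ := R.cyclic d d' (hd.trans hd'.symm)
  rw [← hn]
  refine (h.iter d 0 n (Nat.zero_le n) ?_).symm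
  intro k _ _
  exact hz _ ((next_pow_fst R k d).trans hd)

theorem Sol.across {R : RotationSystem G} {z Q : G.Dart → ZMod 2} (h : Sol R z Q)
    {d : G.Dart} (hz : z d = 0) : Q d.symm = Q d := by
  rw [(h d).1, hz, add_zero]

/-- The cyclic order lemma, in the case where `p` comes before `p'`. -/
theorem cyclic_aux {R : RotationSystem G} {z z' Q Q' : G.Dart → ZMod 2} (h : Sol R z Q)
    (h' : Sol R z' Q') (x p p' : G.Dart)
    (hzx : z x = 1) (hzx' : z' x = 1) (hzp : z p = 1)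
    (hz : ∀ d : G.Dart, d.fst = x.fst → d ≠ x → d ≠ p → z d = 0)
    (hz' : ∀ d : G.Dart, d.fst = x.fst → d ≠ x → d ≠ p' → z' d = 0)
    (m m' : ℕ) (hm : (R.next ^ m) x = p) (hm' : (R.next ^ m') x = p')
    (hmin' : ∀ k < m', (R.next ^ k) x ≠ p') (hlt : m < m') (hm0 : 0 < m) :
    Q p' + Q' p = Q x + Q' x + 1 := by
  have hper : ∀ k, 0 < k → k < m' → (R.next ^ k) x ≠ x := by
    intro k hk hkm hcon
    apply hmin' (m' - k) (by omega)
    have : (R.next ^ m') x = (R.next ^ (m' - k)) ((R.next ^ k) x) := by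
      rw [← Equiv.Perm.mul_apply, ← pow_add]
      congr 2
      omega
    rw [hcon, hm'] at this
    exact this.symm
  have hpne : ∀ k, k < m' → k ≠ m → (R.next ^ k) x ≠ p := by
    intro k hk hkm hcon
    rcases lt_or_gt_of_ne hkm with h1 | h1
    · apply hper (m - k) (by omega) (by omega)
      have e : (R.next ^ k) ((R.next ^ (m - k)) x) = (R.next ^ k) x := by
        rw [← Equiv.Perm.mul_apply, ← pow_add, show k + (m - k) = m by omega, hm, hcon]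
      exact (R.next ^ k).injective e
    · apply hper (k - m) (by omega) (by omega)
      have e : (R.next ^ m) ((R.next ^ (k - m)) x) = (R.next ^ m) x := by
        rw [← Equiv.Perm.mul_apply, ← pow_add, show m + (k - m) = k by omega, hm, hcon]
      exact (R.next ^ m).injective e
  have e1 : Q' p = Q' x + 1 := by
    rw [← hm, h'.iter x 1 m hm0 (fun k hk1 hk2 => hz' _ (next_pow_fst R k x)
      (hper k hk1 (by omega)) (hmin' k (by omega))), pow_one, h'.next, hzx']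
  have e2 : Q p = Q x + 1 := by
    rw [← hm, h.iter x 1 m hm0 (fun k hk1 hk2 => hz _ (next_pow_fst R k x)
      (hper k hk1 (by omega)) (hpne k (by omega) (by omega))), pow_one, h.next, hzx]
  have e3 : Q p' = Q p + 1 := by
    rw [← hm', h.iter x (m + 1) m' hlt (fun k hk1 hk2 => hz _ (next_pow_fst R k x)
      (hper k (by omega) hk2) (hpne k hk2 (by omega))), pow_succ', Equiv.Perm.mul_apply, hm,
      h.next, hzp]
  rw [e3, e2, e1]
  have : (1 : ZMod 2) + 1 = 0 := by decide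
  calc Q x + 1 + 1 + (Q' x + 1) = Q x + Q' x + 1 + (1 + 1) := by ring
    _ = _ := by rw [this, add_zero]

theorem cyclic_lemma {R : RotationSystem G} {z z' Q Q' : G.Dart → ZMod 2} (h : Sol R z Q)
    (h' : Sol R z' Q') (x p p' : G.Dart) (hpx : p ≠ x) (hpx' : p' ≠ x) (hpp : p ≠ p')
    (hfp : p.fst = x.fst) (hfp' : p'.fst = x.fst)
    (hzx : z x = 1) (hzx' : z' x = 1) (hzp : z p = 1) (hzp' : z' p' = 1)
    (hz : ∀ d : G.Dart, d.fst = x.fst → d ≠ x → d ≠ p → z d = 0)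
    (hz' : ∀ d : G.Dart, d.fst = x.fst → d ≠ x → d ≠ p' → z' d = 0) :
    Q p' + Q' p = Q x + Q' x + 1 := by
  classical
  have hm := R.cyclic x p hfp.symm
  have hm' := R.cyclic x p' hfp'.symm
  have a1 := Nat.find_spec hm
  have a2 := Nat.find_spec hm'
  have b1 : ∀ k < Nat.find hm, (R.next ^ k) x ≠ p := fun k hk => Nat.find_min hm hk
  have b2 : ∀ k < Nat.find hm', (R.next ^ k) x ≠ p' := fun k hk => Nat.find_min hm' hk
  have c1 : 0 < Nat.find hm := by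
    rcases Nat.eq_zero_or_pos (Nat.find hm) with h0 | h0
    · rw [h0] at a1
      exact absurd a1.symm hpx
    · exact h0
  have c2 : 0 < Nat.find hm' := by
    rcases Nat.eq_zero_or_pos (Nat.find hm') with h0 | h0
    · rw [h0] at a2
      exact absurd a2.symm hpx'
    · exact h0
  have hne : Nat.find hm ≠ Nat.find hm' := by
    intro he
    rw [he] at a1
    exact hpp (a1.symm.trans a2)
  rcases lt_or_gt_of_ne hne with hlt | hlt
  · exact cyclic_aux h h' x p p' hzx hzx' hzp hz hz' _ _ a1 a2 b2 hlt c1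
  · have := cyclic_aux h' h x p' p hzx' hzx hzp' hz' hz _ _ a2 a1 b1 hlt c2
    rw [add_comm, this]
    ring

/-- the hexagon `a₁ b₁ a₂ b₂ a₃ b₃` -/
noncomputable def hexa (a₁ b₁ a₂ b₂ a₃ b₃ : V) (e : Sym2 V) : ZMod 2 :=
  ind a₁ b₁ e + ind b₁ a₂ e + ind a₂ b₂ e + ind b₂ a₃ e + ind a₃ b₃ e + ind b₃ a₁ e

/-- Two crossing chords of the hexagon lie on different sides. -/
theorem crossing [Finite V] (R : RotationSystem G) (hR : R.GenusLE 0)
    {a₁ a₂ a₃ b₁ b₂ b₃ : V} (ha12 : a₁ ≠ a₂) (ha13 : a₁ ≠ a₃) (ha23 : a₂ ≠ a₃)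
    (hb12 : b₁ ≠ b₂) (hb13 : b₁ ≠ b₃) (hb23 : b₂ ≠ b₃)
    (h11 : G.Adj a₁ b₁) (h12 : G.Adj a₁ b₂) (h13 : G.Adj a₁ b₃)
    (h21 : G.Adj a₂ b₁) (h22 : G.Adj a₂ b₂) (h23 : G.Adj a₂ b₃)
    (h31 : G.Adj a₃ b₁) (h32 : G.Adj a₃ b₂) (h33 : G.Adj a₃ b₃)
    (QH : G.Dart → ZMod 2) (hQH : Sol R (fun x => hexa a₁ b₁ a₂ b₂ a₃ b₃ x.edge) QH) :
    QH ⟨(a₁, b₂), h12⟩ ≠ QH ⟨(a₂, b₃), h23⟩ := by
  obtain ⟨Q1, hQ1⟩ := exists_cyc4 R hR h11 h21.symm h22 h12.symm
  obtain ⟨Q2, hQ2⟩ := exists_cyc4 R hR h12 h32.symm h33 h13.symm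
  have n11 := h11.ne
  have n12 := h12.ne
  have n13 := h13.ne
  have n21 := h21.ne
  have n22 := h22.ne
  have n23 := h23.ne
  have n31 := h31.ne
  have n32 := h32.ne
  have n33 := h33.ne
  -- the difference is constant
  have hS : Sol R (fun _ => 0) (fun d => QH d + (Q1 d + Q2 d)) := by
    have := hQH.add (hQ1.add hQ2)
    have e : (fun d : G.Dart => hexa a₁ b₁ a₂ b₂ a₃ b₃ d.edge +
        (cyc4 a₁ b₁ a₂ b₂ d.edge + cyc4 a₁ b₂ a₃ b₃ d.edge)) = fun _ => 0 := by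
      funext d
      simp only [hexa, cyc4]
      rw [ind_comm b₂ a₁]
      generalize ind a₁ b₁ d.edge = p1
      generalize ind b₁ a₂ d.edge = p2
      generalize ind a₂ b₂ d.edge = p3
      generalize ind b₂ a₃ d.edge = p4
      generalize ind a₃ b₃ d.edge = p5
      generalize ind b₃ a₁ d.edge = p6
      generalize ind a₁ b₂ d.edge = p7
      revert p1 p2 p3 p4 p5 p6 p7
      decide
    rw [e] at this
    exact this
  set S := fun d => QH d + (Q1 d + Q2 d) with hSdef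
  have hconst : S ⟨(a₁, b₂), h12⟩ = S ⟨(a₂, b₃), h23⟩ := by
    have k1 : S ⟨(b₂, a₁), h12.symm⟩ = S ⟨(a₁, b₂), h12⟩ :=
      hS.across (d := ⟨(a₁, b₂), h12⟩) rfl
    have k2 : S ⟨(b₂, a₁), h12.symm⟩ = S ⟨(b₂, a₂), h22.symm⟩ :=
      hS.const (v := b₂) (fun _ _ => rfl) rfl rfl
    have k3 : S ⟨(b₂, a₂), h22.symm⟩ = S ⟨(a₂, b₂), h22⟩ :=
      hS.across (d := ⟨(a₂, b₂), h22⟩) rfl
    have k4 : S ⟨(a₂, b₂), h22⟩ = S ⟨(a₂, b₃), h23⟩ :=
      hS.const (v := a₂) (fun _ _ => rfl) rfl rfl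
    rw [← k1, k2, k3, k4]
  -- S1
  have q1y : Q1 ⟨(a₂, b₃), h23⟩ = Q1 ⟨(a₁, b₃), h13⟩ := by
    have zb3 : ∀ d : G.Dart, d.fst = b₃ → cyc4 a₁ b₁ a₂ b₂ d.edge = 0 := by
      rintro ⟨⟨f, g⟩, hfg⟩ hd
      simp only at hd
      subst hd
      simp only [SimpleGraph.Dart.edge_mk, cyc4]
      rw [ind_other n13.symm hb13.symm, ind_other hb13.symm n23.symm,
        ind_other n23.symm hb23.symm, ind_other hb23.symm n13.symm]
      simp
    have k1 : Q1 ⟨(a₂, b₃), h23⟩ = Q1 ⟨(b₃, a₂), h23.symm⟩ :=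
      hQ1.across (d := ⟨(b₃, a₂), h23.symm⟩) (zb3 _ rfl)
    have k2 : Q1 ⟨(b₃, a₂), h23.symm⟩ = Q1 ⟨(b₃, a₁), h13.symm⟩ := hQ1.const zb3 rfl rfl
    have k3 : Q1 ⟨(a₁, b₃), h13⟩ = Q1 ⟨(b₃, a₁), h13.symm⟩ :=
      hQ1.across (d := ⟨(b₃, a₁), h13.symm⟩) (zb3 _ rfl)
    rw [k1, k2, k3]
  have q2y : Q2 ⟨(a₂, b₃), h23⟩ = Q2 ⟨(a₁, b₁), h11⟩ := by
    have za2 : ∀ d : G.Dart, d.fst = a₂ → cyc4 a₁ b₂ a₃ b₃ d.edge = 0 := by
      rintro ⟨⟨f, g⟩, hfg⟩ hd
      simp only at hd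
      subst hd
      simp only [SimpleGraph.Dart.edge_mk, cyc4]
      rw [ind_other ha12.symm n22, ind_other n22 ha23, ind_other ha23 n23,
        ind_other n23 ha12.symm]
      simp
    have zb1 : ∀ d : G.Dart, d.fst = b₁ → cyc4 a₁ b₂ a₃ b₃ d.edge = 0 := by
      rintro ⟨⟨f, g⟩, hfg⟩ hd
      simp only at hd
      subst hd
      simp only [SimpleGraph.Dart.edge_mk, cyc4]
      rw [ind_other n11.symm hb12, ind_other hb12 n31.symm, ind_other n31.symm hb13,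
        ind_other hb13 n11.symm]
      simp
    have k1 : Q2 ⟨(a₂, b₃), h23⟩ = Q2 ⟨(a₂, b₁), h21⟩ := hQ2.const za2 rfl rfl
    have k2 : Q2 ⟨(b₁, a₂), h21.symm⟩ = Q2 ⟨(a₂, b₁), h21⟩ :=
      hQ2.across (d := ⟨(a₂, b₁), h21⟩) (za2 _ rfl)
    have k3 : Q2 ⟨(b₁, a₂), h21.symm⟩ = Q2 ⟨(b₁, a₁), h11.symm⟩ := hQ2.const zb1 rfl rfl
    have k4 : Q2 ⟨(a₁, b₁), h11⟩ = Q2 ⟨(b₁, a₁), h11.symm⟩ :=
      hQ2.across (d := ⟨(b₁, a₁), h11.symm⟩) (zb1 _ rfl)
    rw [k1, ← k2, k3, k4]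
  -- S3
  have hdart : ∀ {a b : V} (h : G.Adj a b) (d : G.Dart), d.fst = a → d ≠ ⟨(a, b), h⟩ →
      d.snd ≠ b := by
    rintro a b h ⟨⟨f, g⟩, hfg⟩ hd hne hs
    simp only at hd hs
    subst hd
    subst hs
    exact hne rfl
  have q3 : Q1 ⟨(a₁, b₃), h13⟩ + Q2 ⟨(a₁, b₁), h11⟩ =
      Q1 ⟨(a₁, b₂), h12⟩ + Q2 ⟨(a₁, b₂), h12⟩ + 1 := by
    have s12 : ∀ {x y z : V} (hx : y ≠ z) (h1 : G.Adj x y) (h2 : G.Adj x z),
        (⟨(x, y), h1⟩ : G.Dart) ≠ ⟨(x, z), h2⟩ := by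
      intro x y z hx h1 h2 he
      have := congrArg (fun d : G.Dart => d.snd) he
      exact hx this
    apply cyclic_lemma hQ1 hQ2 ⟨(a₁, b₂), h12⟩ ⟨(a₁, b₁), h11⟩ ⟨(a₁, b₃), h13⟩
      (s12 hb12 _ _) (s12 hb23.symm _ _) (s12 hb13 _ _) rfl rfl
    · simp only [SimpleGraph.Dart.edge_mk, cyc4]
      rw [ind_other' hb12.symm n11, ind_other n11 ha12, ind_other ha12 n12, ind_comm, ind_self]
      simp
    · simp only [SimpleGraph.Dart.edge_mk, cyc4]
      rw [ind_self, ind_other n12 ha13, ind_other ha13 n13, ind_comm, ind_other' hb23 n13]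
      simp
    · simp only [SimpleGraph.Dart.edge_mk, cyc4]
      rw [ind_self, ind_other n11 ha12, ind_other ha12 n12, ind_comm, ind_other' hb12 n12]
      simp
    · simp only [SimpleGraph.Dart.edge_mk, cyc4]
      rw [ind_other' hb23.symm n12, ind_other n12 ha13, ind_other ha13 n13, ind_comm, ind_self]
      simp
    · intro d hd hne1 hne2
      have t1 := hdart h12 d hd hne1
      have t2 := hdart h11 d hd hne2
      obtain ⟨⟨f, g⟩, hfg⟩ := d
      simp only at hd t1 t2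
      subst hd
      simp only [SimpleGraph.Dart.edge_mk, cyc4]
      rw [ind_other' t2 n11, ind_other n11 ha12, ind_other ha12 n12, ind_comm,
        ind_other' t1 n12]
      simp
    · intro d hd hne1 hne2
      have t1 := hdart h12 d hd hne1
      have t2 := hdart h13 d hd hne2
      obtain ⟨⟨f, g⟩, hfg⟩ := d
      simp only at hd t1 t2
      subst hd
      simp only [SimpleGraph.Dart.edge_mk, cyc4]
      rw [ind_other' t1 n12, ind_other n12 ha13, ind_other ha13 n13, ind_comm,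
        ind_other' t2 n13]
      simp
  intro hcon
  have hconst' : QH ⟨(a₁, b₂), h12⟩ + (Q1 ⟨(a₁, b₂), h12⟩ + Q2 ⟨(a₁, b₂), h12⟩) =
    QH ⟨(a₂, b₃), h23⟩ + (Q1 ⟨(a₂, b₃), h23⟩ + Q2 ⟨(a₂, b₃), h23⟩) := hconst
  rw [q1y, q2y, q3, hcon] at hconst'
  generalize QH ⟨(a₂, b₃), h23⟩ = u at hconst'
  generalize Q1 ⟨(a₁, b₂), h12⟩ = v at hconst'
  generalize Q2 ⟨(a₁, b₂), h12⟩ = w at hconst'
  revert u v w
  decide

/-- A finite graph containing `K_{3,3}` is not planar. -/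
theorem not_planar_of_k33 [Finite V] {a₁ a₂ a₃ b₁ b₂ b₃ : V} (ha12 : a₁ ≠ a₂) (ha13 : a₁ ≠ a₃)
    (ha23 : a₂ ≠ a₃) (hb12 : b₁ ≠ b₂) (hb13 : b₁ ≠ b₃) (hb23 : b₂ ≠ b₃)
    (h11 : G.Adj a₁ b₁) (h12 : G.Adj a₁ b₂) (h13 : G.Adj a₁ b₃)
    (h21 : G.Adj a₂ b₁) (h22 : G.Adj a₂ b₂) (h23 : G.Adj a₂ b₃)
    (h31 : G.Adj a₃ b₁) (h32 : G.Adj a₃ b₂) (h33 : G.Adj a₃ b₃) : ¬ IsPlanar G := by
  rintro ⟨R, hR⟩
  obtain ⟨Q1, hQ1⟩ := exists_cyc4 R hR h11 h21.symm h22 h12.symm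
  obtain ⟨Q2, hQ2⟩ := exists_cyc4 R hR h12 h32.symm h33 h13.symm
  set QH : G.Dart → ZMod 2 := fun d => Q1 d + Q2 d with hQHd
  have hQH : Sol R (fun x => hexa a₁ b₁ a₂ b₂ a₃ b₃ x.edge) QH := by
    have := hQ1.add hQ2
    have e : (fun x : G.Dart => hexa a₁ b₁ a₂ b₂ a₃ b₃ x.edge) = fun x =>
        cyc4 a₁ b₁ a₂ b₂ x.edge + cyc4 a₁ b₂ a₃ b₃ x.edge := by
      funext d
      simp only [hexa, cyc4]
      rw [ind_comm b₂ a₁]
      generalize ind a₁ b₁ d.edge = p1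
      generalize ind b₁ a₂ d.edge = p2
      generalize ind a₂ b₂ d.edge = p3
      generalize ind b₂ a₃ d.edge = p4
      generalize ind a₃ b₃ d.edge = p5
      generalize ind b₃ a₁ d.edge = p6
      generalize ind a₁ b₂ d.edge = p7
      revert p1 p2 p3 p4 p5 p6 p7
      decide
    rw [e]
    exact this
  have hrot : ∀ x : Sym2 V, hexa a₂ b₂ a₃ b₃ a₁ b₁ x = hexa a₁ b₁ a₂ b₂ a₃ b₃ x := by
    intro x
    simp only [hexa]
    ring
  have hrot' : ∀ x : Sym2 V, hexa a₃ b₃ a₁ b₁ a₂ b₂ x = hexa a₁ b₁ a₂ b₂ a₃ b₃ x := by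
    intro x
    simp only [hexa]
    ring
  have c1 := crossing R hR ha12 ha13 ha23 hb12 hb13 hb23 h11 h12 h13 h21 h22 h23 h31 h32 h33
    QH hQH
  have c2 := crossing R hR ha23 ha12.symm ha13.symm hb23 hb12.symm hb13.symm h22 h23 h21 h32 h33
    h31 h12 h13 h11 QH (by simpa only [hrot] using hQH)
  have c3 := crossing R hR ha13.symm ha23.symm ha12 hb13.symm hb23.symm hb12 h33 h31 h32 h13 h11
    h12 h23 h21 h22 QH (by simpa only [hrot'] using hQH)
  generalize QH ⟨(a₁, b₂), h12⟩ = p at c1 c3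
  generalize QH ⟨(a₂, b₃), h23⟩ = q at c1 c2
  generalize QH ⟨(a₃, b₁), h31⟩ = r at c2 c3
  revert p q r
  decide

end Pool.Agent.H29.Tor
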