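import Pool.Agent.H29.Tor.Tables
import Pool.Agent.H29.Tor.Four
import Pool.Agent.H29.Tor.K33

set_option autoImplicit false

/-!
The graph is connected, toroidal and not planar.
-/

namespace Pool.Agent.H29.Tor

open SimpleGraph

/-- valid raw darts -/
abbrev TD := {t : Raw // valid t = true}

theorem kap_inj2 {i i' : Fin 15} {j j' : Fin 10} (h : kap i j = kap i' j') : j = j' := by
  fin_cases j <;> fin_cases j' <;> simp [kap] at h ⊢

theorem kap_inj1 {i i' : Fin 15} {j j' : Fin 10} (h : kap i j = kap i' j') (hj : 2 ≤ j.val) :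
    i = i' := by
  fin_cases j <;> fin_cases j' <;> simp [kap] at h hj ⊢ <;> exact h

theorem kap_ne_inl {i : Fin 15} {j : Fin 10} {c : Fin 9} (h : kap i j = .inl c) (hj : 2 ≤ j.val) :
    False := by
  fin_cases j <;> simp [kap] at h hj

theorem valid_adj (t : Raw) (h : valid t = true) : TG.Adj (src t) (src (rev t)) := by
  rcases t with ⟨c, d⟩ | ⟨i, j, k⟩
  · exact Or.inl ⟨c, d, h, rfl, rfl⟩
  · exact Or.inr ⟨i, j, k, h, rfl, rfl⟩

/-- the dart of the graph given by a valid raw dart -/
def toDart (t : TD) : TG.Dart := ⟨(src t.1, src (rev t.1)), valid_adj t.1 t.2⟩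

theorem toDart_inj : Function.Injective toDart := by
  rintro ⟨t, ht⟩ ⟨t', ht'⟩ h
  have h1 : src t = src t' := congrArg (fun d : TG.Dart => d.fst) h
  have h2 : src (rev t) = src (rev t') := congrArg (fun d : TG.Dart => d.snd) h
  apply Subtype.ext
  simp only
  rcases t with ⟨c, d⟩ | ⟨i, j, k⟩ <;> rcases t' with ⟨c', d'⟩ | ⟨i', j', k'⟩
  · have e1 : c = c' := Sum.inl.inj h1
    have e2 : d = d' := Sum.inl.inj h2
    rw [e1, e2]
  · exfalso
    rcases noKK j' k' ht' with h3 | h3
    · exact kap_ne_inl h1.symm h3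
    · exact kap_ne_inl h2.symm h3
  · exfalso
    rcases noKK j k ht with h3 | h3
    · exact kap_ne_inl h1 h3
    · exact kap_ne_inl h2 h3
  · have e1 : j = j' := kap_inj2 h1
    have e2 : k = k' := kap_inj2 h2
    have e3 : i = i' := by
      rcases noKK j k ht with h3 | h3
      · exact kap_inj1 h1 h3
      · exact kap_inj1 h2 h3
    rw [e1, e2, e3]

theorem toDart_surj : Function.Surjective toDart := by
  rintro ⟨⟨x, y⟩, h⟩
  rcases h with ⟨c, d, h, hx, hy⟩ | ⟨i, j, k, h, hx, hy⟩
  · simp only at hx hy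
    subst hx; subst hy
    exact ⟨⟨.inl (c, d), h⟩, rfl⟩
  · simp only at hx hy
    subst hx; subst hy
    exact ⟨⟨.inr (i, (j, k)), h⟩, rfl⟩

/-- raw darts and darts -/
noncomputable def dE : TD ≃ TG.Dart := Equiv.ofBijective toDart ⟨toDart_inj, toDart_surj⟩

/-- the rotation on raw darts -/
def nxtE : Equiv.Perm TD where
  toFun t := ⟨nxt t.1, valid_nxt t.1 t.2⟩
  invFun t := ⟨prv t.1, valid_prv t.1 t.2⟩
  left_inv t := Subtype.ext (prv_nxt t.1 t.2)
  right_inv t := Subtype.ext (nxt_prv t.1 t.2)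

theorem src_eq (t : TD) : (dE t).fst = src t.1 := rfl

theorem sameCycle_base (n : ℕ) : ∀ t : TD, rk t.1 = n → ∀ t' : TD, src t'.1 = src t.1 →
    rk t'.1 = 0 → nxtE.SameCycle t' t := by
  induction n with
  | zero =>
    intro t ht t' hs ht'
    have h1 := rk_zero t.1 t.2 ht
    have h2 := rk_zero t'.1 t'.2 ht'
    have : t' = t := by
      apply Subtype.ext
      rw [h1, h2, hs]
    rw [this]
  | succ n ih =>
    intro t ht t' hs ht'
    have h1 := rk_succ t.1 t.2 (by omega)
    set p : TD := ⟨prv t.1, valid_prv t.1 t.2⟩ with hp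
    have hpt : nxtE p = t := nxtE.right_inv t
    have hsp : src p.1 = src t.1 := by
      have := src_nxt p.1 p.2
      rw [← this]
      exact congrArg (fun x : TD => src x.1) hpt
    have h2 := ih p (by simp only [hp]; omega) t' (hs.trans hsp.symm) ht'
    rw [← hpt]
    exact Equiv.Perm.sameCycle_apply_right.2 h2

theorem exists_base (n : ℕ) : ∀ t : TD, rk t.1 = n → ∃ t' : TD, src t'.1 = src t.1 ∧ rk t'.1 = 0 := by
  induction n with
  | zero => exact fun t ht => ⟨t, rfl, ht⟩
  | succ n ih =>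
    intro t ht
    have h1 := rk_succ t.1 t.2 (by omega)
    set p : TD := ⟨prv t.1, valid_prv t.1 t.2⟩ with hp
    have hpt : nxtE p = t := nxtE.right_inv t
    have hsp : src p.1 = src t.1 := by
      have := src_nxt p.1 p.2
      rw [← this]
      exact congrArg (fun x : TD => src x.1) hpt
    obtain ⟨t', h2, h3⟩ := ih p (by simp only [hp]; omega)
    exact ⟨t', h2.trans hsp, h3⟩

theorem sameCycle_of_src (t t' : TD) (h : src t.1 = src t'.1) : nxtE.SameCycle t t' := by
  obtain ⟨b, hb1, hb2⟩ := exists_base _ t rfl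
  exact (sameCycle_base _ t rfl b hb1 hb2).symm.trans
    (sameCycle_base _ t' rfl b (hb1.trans h) hb2)

theorem dE_pow (n : ℕ) (t : TD) :
    ((dE.symm.trans (nxtE.trans dE)) ^ n) (dE t) = dE ((nxtE ^ n) t) := by
  induction n with
  | zero => rfl
  | succ n ih =>
    rw [pow_succ', Equiv.Perm.mul_apply, ih, pow_succ', Equiv.Perm.mul_apply]
    simp

/-- the rotation system -/
noncomputable def RS : RotationSystem TG where
  next := dE.symm.trans (nxtE.trans dE)
  fst_next := by
    intro d
    obtain ⟨t, rfl⟩ := dE.surjective d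
    rw [Equiv.trans_apply, Equiv.symm_apply_apply, Equiv.trans_apply, src_eq, src_eq]
    exact src_nxt t.1 t.2
  cyclic := by
    intro d d' h
    obtain ⟨t, rfl⟩ := dE.surjective d
    obtain ⟨t', rfl⟩ := dE.surjective d'
    rw [src_eq, src_eq] at h
    obtain ⟨n, -, hn⟩ := (sameCycle_of_src t t' h).exists_pow_eq'
    exact ⟨n, by rw [dE_pow, hn]⟩

theorem dE_symm (t : TD) : (dE t).symm = dE ⟨rev t.1, valid_rev t.1 t.2⟩ := by
  apply SimpleGraph.Dart.ext
  apply Prod.ext
  · rfl
  · change src t.1 = src (rev (rev t.1))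
    rcases t with ⟨⟨c, d⟩ | ⟨i, j, k⟩, ht⟩ <;> rfl

/-- the face label of a dart -/
noncomputable def labD (d : TG.Dart) : Fin 238 := ⟨lab (dE.symm d).1, lab_lt _ (dE.symm d).2⟩

theorem labD_step (d : TG.Dart) : labD (RS.faceStep d) = labD d := by
  obtain ⟨t, rfl⟩ := dE.surjective d
  apply Fin.ext
  change lab (dE.symm (RS.next (dE t).symm)).1 = lab (dE.symm (dE t)).1
  rw [dE_symm, Equiv.symm_apply_apply]
  change lab (dE.symm (dE (nxtE (dE.symm (dE ⟨rev t.1, _⟩))))).1 = _
  rw [Equiv.symm_apply_apply, Equiv.symm_apply_apply]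
  exact lab_face t.1 t.2

theorem labD_zpow (n : ℤ) (d : TG.Dart) : labD ((RS.faceStep ^ n) d) = labD d := by
  induction n using Int.induction_on generalizing d with
  | zero => rfl
  | succ n ih =>
    rw [zpow_add_one, Equiv.Perm.mul_apply, ih, labD_step]
  | pred n ih =>
    rw [zpow_sub_one, Equiv.Perm.mul_apply, ih]
    have h := labD_step (RS.faceStep⁻¹ d)
    rw [← Equiv.Perm.mul_apply, mul_inv_cancel, Equiv.Perm.one_apply] at h
    exact h.symm

theorem card_faces : 238 ≤ Nat.card (Quotient (Equiv.Perm.SameCycle.setoid RS.faceStep)) := by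
  have : Finite (Quotient (Equiv.Perm.SameCycle.setoid RS.faceStep)) := by
    have : Finite TG.Dart := Finite.of_surjective dE dE.surjective
    infer_instance
  let f : Quotient (Equiv.Perm.SameCycle.setoid RS.faceStep) → Fin 238 :=
    Quotient.lift labD (by
      rintro a b ⟨n, hn⟩
      rw [← hn, labD_zpow])
  have hf : Function.Surjective f := by
    intro n
    obtain ⟨h1, h2⟩ := lab_wit n.1 n.2
    refine ⟨Quotient.mk _ (dE ⟨wit n.1, h1⟩), ?_⟩
    change labD (dE ⟨wit n.1, h1⟩) = n
    apply Fin.ext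
    change lab (dE.symm (dE ⟨wit n.1, h1⟩)).1 = n.1
    rw [Equiv.symm_apply_apply]
    exact h2
  have h := Nat.card_le_card_of_surjective f hf
  rwa [Nat.card_eq_fintype_card, Fintype.card_fin] at h

theorem card_edges : Nat.card TG.edgeSet = 367 := by
  classical
  have h1 : Nat.card TG.Dart = 734 := by
    rw [← Nat.card_congr dE, Nat.card_eq_fintype_card]
    exact card_valid
  have h2 := TG.dart_card_eq_twice_card_edges
  rw [← Nat.card_eq_fintype_card, h1] at h2
  rw [Nat.card_eq_fintype_card, ← SimpleGraph.edgeFinset_card]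
  omega

theorem TG_connected : TG.Connected := by
  have hu : ∀ v : Vx, TG.Reachable (.inl 0) v := by
    have hc : ∀ c : Fin 9, adjC 0 c = true → TG.Reachable (.inl 0) (.inl c) :=
      fun c h => (TG_core h).reachable
    have h1 : TG.Reachable (.inl 0) (.inl 1) :=
      (hc 2 (by decide)).trans (TG_core (c := 2) (d := 1) (by decide)).reachable
    have hk : ∀ i : Fin 15, ∀ j : Fin 10, TG.Reachable (.inl 0) (kap i j) := by
      intro i j
      have e0 : TG.Reachable (.inl 0) (kap i 0) := SimpleGraph.Reachable.refl _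
      have e1 : TG.Reachable (.inl 0) (kap i 1) := h1
      have e2 := e0.trans (TG_gad i (j := 0) (k := 2) (by decide)).reachable
      have e3 := e0.trans (TG_gad i (j := 0) (k := 3) (by decide)).reachable
      have e4 := e2.trans (TG_gad i (j := 2) (k := 4) (by decide)).reachable
      have e5 := e0.trans (TG_gad i (j := 0) (k := 5) (by decide)).reachable
      have e6 := e0.trans (TG_gad i (j := 0) (k := 6) (by decide)).reachable
      have e7 := e2.trans (TG_gad i (j := 2) (k := 7) (by decide)).reachable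
      have e8 := e1.trans (TG_gad i (j := 1) (k := 8) (by decide)).reachable
      have e9 := e1.trans (TG_gad i (j := 1) (k := 9) (by decide)).reachable
      fin_cases j
      exacts [e0, e1, e2, e3, e4, e5, e6, e7, e8, e9]
    rintro (c | ⟨i, j⟩)
    · by_cases h0 : c = 0
      · rw [h0]
      · by_cases h1' : c = 1
        · rw [h1']; exact h1
        · exact hc c (by revert h0 h1'; revert c; decide)
    · have : ∃ l : Fin 10, kap i l = .inr (i, j) := by
        fin_cases j
        exacts [⟨2, rfl⟩, ⟨3, rfl⟩, ⟨4, rfl⟩, ⟨5, rfl⟩, ⟨6, rfl⟩, ⟨7, rfl⟩, ⟨8, rfl⟩, ⟨9, rfl⟩]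
      obtain ⟨l, hl⟩ := this
      rw [← hl]
      exact hk i l
  exact { preconnected := fun v w => (hu v).symm.trans (hu w), nonempty := ⟨.inl 0⟩ }

theorem TG_toroidal : IsToroidal TG := by
  refine ⟨RS, ?_⟩
  unfold RotationSystem.GenusLE RotationSystem.numFaces
  have h1 := card_faces
  have h2 := card_edges
  have h3 : Nat.card Vx = 129 := by
    rw [Nat.card_eq_fintype_card]
    simp
  have h4 : Nat.card TG.ConnectedComponent = 1 := by
    rw [Nat.card_eq_one_iff_unique]
    exact ⟨TG_connected.preconnected.subsingleton_connectedComponent,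
      ⟨TG.connectedComponentMk (.inl 0)⟩⟩
  rw [h2, h3, h4]
  push_cast
  omega

/-- A graph on the vertices which contains the nine edges of the core `K_{3,3}`. -/
theorem not_planar_full {W : Type*} [Finite W] (H : SimpleGraph W) (f : Fin 9 → W)
    (hf : ∀ p q : Fin 9, p ≠ q → (p = 0 ∨ p = 1 ∨ p = 2 ∨ p = 3 ∨ p = 5 ∨ p = 6) →
      (q = 0 ∨ q = 1 ∨ q = 2 ∨ q = 3 ∨ q = 5 ∨ q = 6) → f p ≠ f q)
    (h : Full33 (fun p q => H.Adj (f p) (f q))) : ¬ IsPlanar H := by
  obtain ⟨⟨h1, h2, h3⟩, ⟨h4, h5, h6⟩, h7, h8, h9⟩ := h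
  exact not_planar_of_k33 (a₁ := f 0) (a₂ := f 1) (a₃ := f 2) (b₁ := f 3) (b₂ := f 5) (b₃ := f 6)
    (hf _ _ (by decide) (by decide) (by decide)) (hf _ _ (by decide) (by decide) (by decide))
    (hf _ _ (by decide) (by decide) (by decide)) (hf _ _ (by decide) (by decide) (by decide))
    (hf _ _ (by decide) (by decide) (by decide)) (hf _ _ (by decide) (by decide) (by decide))
    h1 h2 h3 h4 h5 h6 h7 h8 h9

theorem TG_not_planar : ¬ IsPlanar TG :=
  not_planar_full TG (fun p => .inl p) (fun p q h _ _ h' => h (Sum.inl.inj h'))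
    ⟨⟨TG_core (by decide), TG_core (by decide), TG_core (by decide)⟩,
      ⟨TG_core (by decide), TG_core (by decide), TG_core (by decide)⟩,
      TG_core (by decide), TG_core (by decide), TG_core (by decide)⟩

end Pool.Agent.H29.Tor
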