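import Pool.Agent.H29.Tor.Defs

set_option autoImplicit false

/-!
For a rotation system of genus `0` every cycle (mod 2) is the boundary of a set of faces.
-/

namespace Pool.Agent.H29.Tor

open SimpleGraph

variable {V : Type*} {G : SimpleGraph V}

/-- `Q` is a 2-colouring of the faces (read on darts) whose boundary is `z`. -/
def Sol (R : RotationSystem G) (z Q : G.Dart → ZMod 2) : Prop :=
  ∀ d, Q d.symm = Q d + z d ∧ Q (R.next d) = Q d.symm

/-- the face at a dart -/
def face (R : RotationSystem G) (d : G.Dart) : Quotient (Equiv.Perm.SameCycle.setoid R.faceStep) :=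
  Quotient.mk _ d

theorem face_next (R : RotationSystem G) (d : G.Dart) : face R (R.next d) = face R d.symm := by
  apply Quotient.sound
  refine ⟨-1, ?_⟩
  rw [zpow_neg_one, Equiv.Perm.inv_eq_iff_eq]
  simp [RotationSystem.faceStep, Function.Involutive.toPerm]

theorem reach_cases {a b : V} (h : G.Reachable a b) : a = b ∨ ∃ c, G.Adj a c := by
  obtain ⟨w⟩ := h
  cases w with
  | nil => exact Or.inl rfl
  | cons h' w' => exact Or.inr ⟨_, h'⟩

theorem zmod2_add_self (x : ZMod 2) : x + x = 0 := CharTwo.add_self_eq_zero x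

section
variable [Fintype V] [DecidableEq V] [DecidableRel G.Adj]

/-- the boundary of a set of edges -/
noncomputable def bdry (G : SimpleGraph V) [DecidableRel G.Adj] :
    (G.edgeSet → ZMod 2) →ₗ[ZMod 2] (V → ZMod 2) where
  toFun z v := ∑ d : G.Dart, if d.fst = v then z ⟨d.edge, d.edge_mem⟩ else 0
  map_add' z w := by
    funext v
    simp only [Pi.add_apply]
    rw [← Finset.sum_add_distrib]
    refine Finset.sum_congr rfl fun d _ => ?_
    split_ifs <;> simp
  map_smul' c z := by
    funext v
    simp only [Pi.smul_apply, smul_eq_mul, RingHom.id_apply, Finset.mul_sum]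
    refine Finset.sum_congr rfl fun d _ => ?_
    split_ifs <;> simp

theorem bdry_single (d0 : G.Dart) :
    bdry G (Pi.single ⟨d0.edge, d0.edge_mem⟩ 1) = Pi.single d0.fst 1 + Pi.single d0.snd 1 := by
  classical
  funext v
  change (∑ d : G.Dart, if d.fst = v then
    (Pi.single (⟨d0.edge, d0.edge_mem⟩ : G.edgeSet) (1 : ZMod 2) : G.edgeSet → ZMod 2)
      ⟨d.edge, d.edge_mem⟩ else 0) = _
  have h1 : ∀ d : G.Dart, (if d.fst = v then
      (Pi.single (⟨d0.edge, d0.edge_mem⟩ : G.edgeSet) (1 : ZMod 2) : G.edgeSet → ZMod 2)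
        ⟨d.edge, d.edge_mem⟩ else 0) =
      if d.edge = d0.edge then (if d.fst = v then (1 : ZMod 2) else 0) else 0 := by
    intro d
    rw [Pi.single_apply]
    by_cases h : d.edge = d0.edge
    · simp [h]
    · simp [h]
  rw [Finset.sum_congr rfl (fun d _ => h1 d), ← Finset.sum_filter, SimpleGraph.Dart.edge_fiber,
    Finset.sum_pair d0.symm_ne.symm]
  simp only [Pi.add_apply, Pi.single_apply]
  congr 1
  · simp [eq_comm]
  · simp [eq_comm]

theorem card_le_rank : Nat.card V ≤ Module.finrank (ZMod 2) (LinearMap.range (bdry G)) +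
    Nat.card G.ConnectedComponent := by
  classical
  have : Fintype G.ConnectedComponent := Fintype.ofFinite _
  set S := LinearMap.range (bdry G) ⊔ Submodule.span (ZMod 2)
    (Set.range (fun c : G.ConnectedComponent => (Pi.single c.out (1 : ZMod 2) : V → ZMod 2)))
    with hS
  have hstep : ∀ a b : V, G.Adj a b → (Pi.single a (1 : ZMod 2) : V → ZMod 2) ∈ S →
      (Pi.single b (1 : ZMod 2) : V → ZMod 2) ∈ S := by
    intro a b hab ha
    have h1 : (Pi.single a 1 + Pi.single b 1 : V → ZMod 2) ∈ S := by
      apply Submodule.mem_sup_left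
      exact ⟨_, bdry_single (⟨(a, b), hab⟩ : G.Dart)⟩
    have h2 := S.sub_mem h1 ha
    simpa using h2
  have hwalk : ∀ a b : V, G.Walk a b → (Pi.single a (1 : ZMod 2) : V → ZMod 2) ∈ S →
      (Pi.single b (1 : ZMod 2) : V → ZMod 2) ∈ S := by
    intro a b w
    induction w with
    | nil => exact id
    | cons h _ ih => exact fun ha => ih (hstep _ _ h ha)
  have hall : ∀ v : V, (Pi.single v (1 : ZMod 2) : V → ZMod 2) ∈ S := by
    intro v
    have h1 : G.connectedComponentMk (G.connectedComponentMk v).out = G.connectedComponentMk v :=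
      Quot.out_eq _
    obtain ⟨w⟩ := SimpleGraph.ConnectedComponent.exact h1
    refine hwalk _ _ w ?_
    apply Submodule.mem_sup_right
    exact Submodule.subset_span ⟨_, rfl⟩
  have htop : S = ⊤ := by
    rw [eq_top_iff]
    intro f _
    have : f = ∑ v, f v • (Pi.single v (1 : ZMod 2) : V → ZMod 2) := by
      funext w
      simp [Finset.sum_apply, Pi.single_apply]
    rw [this]
    exact Submodule.sum_mem _ fun v _ => Submodule.smul_mem _ _ (hall v)
  have h1 : Module.finrank (ZMod 2) S = Nat.card V := by
    rw [htop, finrank_top, Module.finrank_fintype_fun_eq_card, Nat.card_eq_fintype_card]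
  have h2 := Submodule.finrank_add_le_finrank_add_finrank (LinearMap.range (bdry G))
    (Submodule.span (ZMod 2)
      (Set.range (fun c : G.ConnectedComponent => (Pi.single c.out (1 : ZMod 2) : V → ZMod 2))))
  have h3 : Module.finrank (ZMod 2) (Submodule.span (ZMod 2)
      (Set.range (fun c : G.ConnectedComponent => (Pi.single c.out (1 : ZMod 2) : V → ZMod 2)))) ≤
        Nat.card G.ConnectedComponent := by
    rw [Nat.card_eq_fintype_card]
    exact finrank_range_le_card _
  rw [← hS, h1] at h2
  omega

omit [Fintype V] [DecidableEq V] [DecidableRel G.Adj] in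
theorem exists_rep (e : G.edgeSet) : ∃ d : G.Dart, d.edge = e := by
  obtain ⟨e, he⟩ := e
  induction e using Sym2.ind with
  | _ a b => exact ⟨⟨(a, b), he⟩, rfl⟩

/-- a dart representing an edge -/
noncomputable def rep (e : G.edgeSet) : G.Dart := (exists_rep e).choose

omit [Fintype V] [DecidableEq V] [DecidableRel G.Adj] in
theorem rep_edge (e : G.edgeSet) : (rep e).edge = e := (exists_rep e).choose_spec

/-- the boundary of a set of faces -/
noncomputable def fbdry (R : RotationSystem G) :
    (Quotient (Equiv.Perm.SameCycle.setoid R.faceStep) → ZMod 2) →ₗ[ZMod 2]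
      (G.edgeSet → ZMod 2) where
  toFun q e := q (face R (rep e)) + q (face R (rep e).symm)
  map_add' q r := by
    funext e
    simp only [Pi.add_apply]
    ring
  map_smul' c q := by
    funext e
    simp only [Pi.smul_apply, smul_eq_mul, RingHom.id_apply]
    ring

omit [Fintype V] [DecidableEq V] [DecidableRel G.Adj] in
theorem fbdry_apply (R : RotationSystem G)
    (q : Quotient (Equiv.Perm.SameCycle.setoid R.faceStep) → ZMod 2) (d : G.Dart) :
    fbdry R q ⟨d.edge, d.edge_mem⟩ = q (face R d) + q (face R d.symm) := by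
  change q (face R (rep ⟨d.edge, d.edge_mem⟩)) + q (face R (rep ⟨d.edge, d.edge_mem⟩).symm) = _
  have h := rep_edge (⟨d.edge, d.edge_mem⟩ : G.edgeSet)
  rcases (SimpleGraph.dart_edge_eq_iff _ _).1 h with h1 | h1
  · rw [h1]
  · rw [h1, SimpleGraph.Dart.symm_symm, add_comm]

theorem bdry_fbdry (R : RotationSystem G)
    (q : Quotient (Equiv.Perm.SameCycle.setoid R.faceStep) → ZMod 2) :
    bdry G (fbdry R q) = 0 := by
  funext v
  change (∑ d : G.Dart, if d.fst = v then fbdry R q ⟨d.edge, d.edge_mem⟩ else 0) = 0
  have h1 : ∀ d : G.Dart, (if d.fst = v then fbdry R q ⟨d.edge, d.edge_mem⟩ else 0) =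
      (if d.fst = v then q (face R d) else 0) +
        (if (R.next d).fst = v then q (face R (R.next d)) else 0) := by
    intro d
    rw [fbdry_apply, R.fst_next, face_next]
    split_ifs <;> simp
  rw [Finset.sum_congr rfl (fun d _ => h1 d), Finset.sum_add_distrib,
    Equiv.sum_comp R.next (fun d => if d.fst = v then q (face R d) else 0)]
  exact zmod2_add_self _

omit [Fintype V] [DecidableEq V] [DecidableRel G.Adj] in
theorem ker_const (R : RotationSystem G)
    (q : Quotient (Equiv.Perm.SameCycle.setoid R.faceStep) → ZMod 2) (hq : fbdry R q = 0) :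
    (∀ d : G.Dart, q (face R d.symm) = q (face R d)) ∧
      ∀ d d' : G.Dart, G.Reachable d.fst d'.fst → q (face R d) = q (face R d') := by
  have h1 : ∀ d : G.Dart, q (face R d.symm) = q (face R d) := by
    intro d
    have h := congrFun hq ⟨d.edge, d.edge_mem⟩
    rw [fbdry_apply, Pi.zero_apply] at h
    have h2 := zmod2_add_self (q (face R d))
    calc q (face R d.symm) = (q (face R d) + q (face R d)) + q (face R d.symm) := by
          rw [h2, zero_add]
      _ = q (face R d) + (q (face R d) + q (face R d.symm)) := by ring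
      _ = q (face R d) := by rw [h, add_zero]
  have h2 : ∀ (n : ℕ) (d : G.Dart), q (face R ((R.next ^ n) d)) = q (face R d) := by
    intro n
    induction n with
    | zero => intro d; rfl
    | succ n ih =>
      intro d
      rw [pow_succ', Equiv.Perm.mul_apply, face_next, h1, ih]
  have h3 : ∀ d d' : G.Dart, d.fst = d'.fst → q (face R d) = q (face R d') := by
    intro d d' h
    obtain ⟨n, hn⟩ := R.cyclic d d' h
    rw [← hn, h2]
  refine ⟨h1, ?_⟩
  have h4 : ∀ (a b : V) (w : G.Walk a b), ∀ d d' : G.Dart, d.fst = a → d'.fst = b →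
      q (face R d) = q (face R d') := by
    intro a b w
    induction w with
    | nil => intro d d' h h'; exact h3 d d' (h.trans h'.symm)
    | @cons a c b h w ih =>
      intro d d' hd hd'
      have e1 : q (face R d) = q (face R (⟨(a, c), h⟩ : G.Dart)) := h3 _ _ hd
      have e2 := h1 (⟨(a, c), h⟩ : G.Dart)
      rw [e1, ← e2]
      exact ih _ _ rfl hd'
  intro d d' ⟨w⟩
  exact h4 _ _ w d d' rfl rfl

open Classical in
/-- comparison map for counting -/
noncomputable def cmp (R : RotationSystem G) :
    (LinearMap.ker (fbdry R) × ({v : V // ∀ w, ¬ G.Adj v w} → ZMod 2)) →ₗ[ZMod 2]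
      (G.ConnectedComponent → ZMod 2) where
  toFun x c := if h : ∃ d : G.Dart, d.fst = c.out then x.1.1 (face R h.choose)
    else if h' : ∀ w, ¬ G.Adj c.out w then x.2 ⟨c.out, h'⟩ else 0
  map_add' x y := by
    funext c
    simp only [Pi.add_apply]
    split_ifs <;> simp
  map_smul' a x := by
    funext c
    simp only [Pi.smul_apply, RingHom.id_apply]
    split_ifs <;> simp

theorem cmp_inj (R : RotationSystem G) : Function.Injective (cmp R) := by
  classical
  rw [← LinearMap.ker_eq_bot, LinearMap.ker_eq_bot']
  rintro ⟨⟨q, hq⟩, r⟩ h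
  have hq' : fbdry R q = 0 := hq
  obtain ⟨h1, h2⟩ := ker_const R q hq'
  have hq0 : q = 0 := by
    funext f
    obtain ⟨d, rfl⟩ := Quotient.exists_rep f
    change q (face R d) = 0
    set c := G.connectedComponentMk d.fst with hc
    have hreach : G.Reachable c.out d.fst := SimpleGraph.ConnectedComponent.exact (Quot.out_eq c)
    have hex : ∃ d' : G.Dart, d'.fst = c.out := by
      rcases reach_cases hreach with h' | ⟨c', h'⟩
      · exact ⟨d, h'.symm⟩
      · exact ⟨⟨(_, c'), h'⟩, rfl⟩
    have h3 := congrFun h c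
    change (if h : ∃ d : G.Dart, d.fst = c.out then q (face R h.choose)
      else if h' : ∀ w, ¬ G.Adj c.out w then r ⟨c.out, h'⟩ else 0) = 0 at h3
    rw [dif_pos hex] at h3
    rw [← h3]
    apply h2
    rw [hex.choose_spec]
    exact hreach.symm
  have hr0 : r = 0 := by
    funext v
    obtain ⟨v, hv⟩ := v
    set c := G.connectedComponentMk v with hc
    have hreach : G.Reachable v c.out :=
      (SimpleGraph.ConnectedComponent.exact (Quot.out_eq c)).symm
    have hout : c.out = v := by
      rcases reach_cases hreach with h' | ⟨c', h'⟩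
      · exact h'.symm
      · exact absurd h' (hv _)
    have hnex : ¬ ∃ d' : G.Dart, d'.fst = c.out := by
      rintro ⟨d', hd'⟩
      have := d'.adj
      rw [hd', hout] at this
      exact hv _ this
    have hiso : ∀ w, ¬ G.Adj c.out w := by rw [hout]; exact hv
    have h3 := congrFun h c
    change (if h : ∃ d : G.Dart, d.fst = c.out then q (face R h.choose)
      else if h' : ∀ w, ¬ G.Adj c.out w then r ⟨c.out, h'⟩ else 0) = 0 at h3
    rw [dif_neg hnex, dif_pos hiso] at h3
    rw [Pi.zero_apply, ← h3]
    congr 1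
    exact Subtype.ext hout.symm
  ext <;> simp [hq0, hr0]

theorem ker_card_le (R : RotationSystem G) :
    Module.finrank (ZMod 2) (LinearMap.ker (fbdry R)) + Nat.card {v : V // ∀ w, ¬ G.Adj v w} ≤
      Nat.card G.ConnectedComponent := by
  classical
  have : Fintype G.ConnectedComponent := Fintype.ofFinite _
  have : Fintype (Quotient (Equiv.Perm.SameCycle.setoid R.faceStep)) := Fintype.ofFinite _
  have h := LinearMap.finrank_le_finrank_of_injective (f := cmp R) (cmp_inj R)
  rw [Module.finrank_prod, Module.finrank_fintype_fun_eq_card,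
    Module.finrank_fintype_fun_eq_card] at h
  rw [Nat.card_eq_fintype_card, Nat.card_eq_fintype_card]
  exact h

/-- In genus `0` every cycle is a boundary of faces. -/
theorem exists_sol (R : RotationSystem G) (hR : R.GenusLE 0) (z : G.edgeSet → ZMod 2)
    (hz : bdry G z = 0) : ∃ Q : G.Dart → ZMod 2, Sol R (fun d => z ⟨d.edge, d.edge_mem⟩) Q := by
  classical
  have : Fintype G.ConnectedComponent := Fintype.ofFinite _
  have : Fintype (Quotient (Equiv.Perm.SameCycle.setoid R.faceStep)) := Fintype.ofFinite _
  have h1 := card_le_rank (G := G)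
  have h2 := ker_card_le R
  have h3 := LinearMap.finrank_range_add_finrank_ker (bdry G)
  have h4 := LinearMap.finrank_range_add_finrank_ker (fbdry R)
  rw [Module.finrank_fintype_fun_eq_card, ← Nat.card_eq_fintype_card] at h3 h4
  have h5 : (2 * (Nat.card G.ConnectedComponent : ℤ) - 2 * (0 : ℕ) ≤
    (Nat.card V : ℤ) - Nat.card G.edgeSet + R.numFaces) := hR
  unfold RotationSystem.numFaces at h5
  have hle : LinearMap.range (fbdry R) ≤ LinearMap.ker (bdry G) := by
    rintro _ ⟨q, rfl⟩
    exact bdry_fbdry R q
  have heq : LinearMap.range (fbdry R) = LinearMap.ker (bdry G) := by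
    apply Submodule.eq_of_le_of_finrank_le hle
    push_cast at h5
    omega
  have hz' : z ∈ LinearMap.range (fbdry R) := by rw [heq]; exact hz
  obtain ⟨q, hq⟩ := hz'
  refine ⟨fun d => q (face R d), fun d => ⟨?_, ?_⟩⟩
  · simp only
    rw [← hq, fbdry_apply, ← add_assoc, zmod2_add_self, zero_add]
  · simp only
    rw [face_next]

end

end Pool.Agent.H29.Tor
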