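import Mathlib

set_option autoImplicit false

namespace Pool.Agent.H29.Tor

theorem exists_ne_of_two {S : Finset ℕ} (h : 2 ≤ S.card) (a : ℕ) : ∃ b ∈ S, b ≠ a :=
  Finset.exists_mem_ne (by omega) a

theorem exists_ne_of_three {S : Finset ℕ} (h : 3 ≤ S.card) (a b : ℕ) :
    ∃ c ∈ S, c ≠ a ∧ c ≠ b := by
  have h1 : ((S.erase a).erase b).Nonempty := by
    rw [← Finset.card_pos]
    have h2 := Finset.pred_card_le_card_erase (s := S) (a := a)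
    have h3 := Finset.pred_card_le_card_erase (s := S.erase a) (a := b)
    omega
  obtain ⟨c, hc⟩ := h1
  simp only [Finset.mem_erase] at hc
  exact ⟨c, hc.2.2, hc.2.1, hc.1⟩

theorem exists_mem_notMem {A B : Finset ℕ} (hA : A.card = 2) (hB : B.card = 2) (h : A ≠ B) :
    ∃ b ∈ B, b ∉ A := by
  by_contra hcon
  push Not at hcon
  exact h (Finset.eq_of_subset_of_card_le hcon (by omega)).symm

/-- Three lists with at least two colours each have distinct representatives, unless they are all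
equal to the same pair. -/
theorem sdr3 (A B C : Finset ℕ) (hA : 2 ≤ A.card) (hB : 2 ≤ B.card) (hC : 2 ≤ C.card) :
    (∃ p ∈ A, ∃ q ∈ B, ∃ r ∈ C, p ≠ q ∧ p ≠ r ∧ q ≠ r) ∨
      (A = B ∧ A = C ∧ A.card = 2) := by
  by_cases h3A : 3 ≤ A.card
  · left
    obtain ⟨q, hq, _⟩ := exists_ne_of_two hB 0
    obtain ⟨r, hr, hrq⟩ := exists_ne_of_two hC q
    obtain ⟨p, hp, hpq, hpr⟩ := exists_ne_of_three h3A q r
    exact ⟨p, hp, q, hq, r, hr, hpq, hpr, hrq.symm⟩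
  by_cases h3B : 3 ≤ B.card
  · left
    obtain ⟨p, hp, _⟩ := exists_ne_of_two hA 0
    obtain ⟨r, hr, hrp⟩ := exists_ne_of_two hC p
    obtain ⟨q, hq, hqp, hqr⟩ := exists_ne_of_three h3B p r
    exact ⟨p, hp, q, hq, r, hr, hqp.symm, hrp.symm, hqr⟩
  by_cases h3C : 3 ≤ C.card
  · left
    obtain ⟨p, hp, _⟩ := exists_ne_of_two hA 0
    obtain ⟨q, hq, hqp⟩ := exists_ne_of_two hB p
    obtain ⟨r, hr, hrp, hrq⟩ := exists_ne_of_three h3C p q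
    exact ⟨p, hp, q, hq, r, hr, hqp.symm, hrp.symm, hrq.symm⟩
  have hA2 : A.card = 2 := by omega
  have hB2 : B.card = 2 := by omega
  have hC2 : C.card = 2 := by omega
  by_cases hAB : A = B
  · by_cases hAC : A = C
    · exact Or.inr ⟨hAB, hAC, hA2⟩
    · left
      obtain ⟨r, hr, hrA⟩ := exists_mem_notMem hA2 hC2 hAC
      obtain ⟨p, hp, _⟩ := exists_ne_of_two hA 0
      obtain ⟨q, hq, hqp⟩ := exists_ne_of_two hB p
      exact ⟨p, hp, q, hq, r, hr, hqp.symm, fun h => hrA (h ▸ hp),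
        fun h => hrA (hAB ▸ h ▸ hq)⟩
  · left
    obtain ⟨q, hq, hqA⟩ := exists_mem_notMem hA2 hB2 hAB
    obtain ⟨r, hr, hrq⟩ := exists_ne_of_two hC q
    obtain ⟨p, hp, hpr⟩ := exists_ne_of_two hA r
    exact ⟨p, hp, q, hq, r, hr, fun h => hqA (h ▸ hp), hpr, hrq.symm⟩

theorem card_sdiff_pair (A : Finset ℕ) (h : 4 ≤ A.card) (x y : ℕ) :
    2 ≤ (A \ {x, y}).card := by
  have h1 : ({x, y} : Finset ℕ).card ≤ 2 := Finset.card_le_two
  have h2 := Finset.le_card_sdiff ({x, y} : Finset ℕ) A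
  omega

theorem mem_of_sdiff_pair {A : Finset ℕ} (h : 4 ≤ A.card) {x y : ℕ}
    (h2 : (A \ {x, y}).card = 2) : x ∈ A ∧ y ∈ A := by
  constructor
  · by_contra hx
    have : A \ {x, y} = A \ {y} := by
      ext z
      simp only [Finset.mem_sdiff, Finset.mem_insert, Finset.mem_singleton, not_or]
      constructor
      · rintro ⟨h3, h4, h5⟩; exact ⟨h3, h5⟩
      · rintro ⟨h3, h4⟩; exact ⟨h3, fun h5 => hx (h5 ▸ h3), h4⟩
    rw [this] at h2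
    have h3 := Finset.le_card_sdiff ({y} : Finset ℕ) A
    simp only [Finset.card_singleton] at h3
    omega
  · by_contra hy
    have : A \ {x, y} = A \ {x} := by
      ext z
      simp only [Finset.mem_sdiff, Finset.mem_insert, Finset.mem_singleton, not_or]
      constructor
      · rintro ⟨h3, h4, h5⟩; exact ⟨h3, h4⟩
      · rintro ⟨h3, h4⟩; exact ⟨h3, h4, fun h5 => hy (h5 ▸ h3)⟩
    rw [this] at h2
    have h3 := Finset.le_card_sdiff ({x} : Finset ℕ) A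
    simp only [Finset.card_singleton] at h3
    omega

/-- The octahedron extension property. -/
def OctGood (A B C : Finset ℕ) (a α β : ℕ) : Prop :=
  ∃ p ∈ A, ∃ q ∈ B, ∃ r ∈ C, p ≠ α ∧ p ≠ β ∧ q ≠ a ∧ q ≠ β ∧ r ≠ a ∧ r ≠ α ∧
    p ≠ q ∧ p ≠ r ∧ q ≠ r

theorem oct_bad {A B C : Finset ℕ} (hA : 4 ≤ A.card) (hB : 4 ≤ B.card) (hC : 4 ≤ C.card)
    {a α β : ℕ} (h1 : a ≠ α) (h2 : a ≠ β) (h3 : α ≠ β) (hbad : ¬ OctGood A B C a α β) :
    (∀ x, (x ∈ B ∧ x ∈ C ∧ x ∉ A) ↔ x = a) ∧ (∀ x, (x ∈ A ∧ x ∈ C ∧ x ∉ B) ↔ x = α) ∧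
      (∀ x, (x ∈ A ∧ x ∈ B ∧ x ∉ C) ↔ x = β) := by
  rcases sdr3 _ _ _ (card_sdiff_pair A hA α β) (card_sdiff_pair B hB a β)
    (card_sdiff_pair C hC a α) with ⟨p, hp, q, hq, r, hr, hpq, hpr, hqr⟩ | ⟨hAB, hAC, h⟩
  · exfalso
    apply hbad
    simp only [Finset.mem_sdiff, Finset.mem_insert, Finset.mem_singleton, not_or] at hp hq hr
    exact ⟨p, hp.1, q, hq.1, r, hr.1, hp.2.1, hp.2.2, hq.2.1, hq.2.2, hr.2.1, hr.2.2,
      hpq, hpr, hqr⟩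
  · have hAm := mem_of_sdiff_pair hA h
    have hBm := mem_of_sdiff_pair hB (hAB ▸ h)
    have hCm := mem_of_sdiff_pair hC (hAC ▸ h)
    have eAB : ∀ x, (x ∈ A ∧ x ≠ α ∧ x ≠ β) ↔ (x ∈ B ∧ x ≠ a ∧ x ≠ β) := by
      intro x
      have := Finset.ext_iff.1 hAB x
      simpa only [Finset.mem_sdiff, Finset.mem_insert, Finset.mem_singleton, not_or] using this
    have eAC : ∀ x, (x ∈ A ∧ x ≠ α ∧ x ≠ β) ↔ (x ∈ C ∧ x ≠ a ∧ x ≠ α) := by
      intro x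
      have := Finset.ext_iff.1 hAC x
      simpa only [Finset.mem_sdiff, Finset.mem_insert, Finset.mem_singleton, not_or] using this
    have haA : a ∉ A := fun h4 => ((eAB a).1 ⟨h4, h1, h2⟩).2.1 rfl
    have hαB : α ∉ B := fun h4 => ((eAB α).2 ⟨h4, h1.symm, h3⟩).2.1 rfl
    have hβC : β ∉ C := fun h4 => ((eAC β).2 ⟨h4, h2.symm, h3.symm⟩).2.2 rfl
    refine ⟨fun x => ⟨?_, ?_⟩, fun x => ⟨?_, ?_⟩, fun x => ⟨?_, ?_⟩⟩
    · rintro ⟨h4, h5, h6⟩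
      by_contra h7
      by_cases h8 : x = β
      · exact h6 (h8 ▸ hAm.2)
      · exact h6 ((eAB x).2 ⟨h4, h7, h8⟩).1
    · rintro rfl
      exact ⟨hBm.1, hCm.1, haA⟩
    · rintro ⟨h4, h5, h6⟩
      by_contra h7
      by_cases h8 : x = β
      · exact hβC (h8 ▸ h5)
      · exact h6 ((eAB x).1 ⟨h4, h7, h8⟩).1
    · rintro rfl
      exact ⟨hAm.1, hCm.2, hαB⟩
    · rintro ⟨h4, h5, h6⟩
      by_contra h7
      by_cases h8 : x = α
      · exact hαB (h8 ▸ h5)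
      · exact h6 ((eAC x).1 ⟨h4, h8, h7⟩).1
    · rintro rfl
      exact ⟨hAm.2, hBm.2, hβC⟩

theorem oct_unique (A B C : Finset ℕ) (hA : 4 ≤ A.card) (hB : 4 ≤ B.card) (hC : 4 ≤ C.card) :
    ∃ a0 α0 β0 : ℕ, ∀ a α β : ℕ, a ≠ α → a ≠ β → α ≠ β →
      (a ≠ a0 ∨ α ≠ α0 ∨ β ≠ β0) → OctGood A B C a α β := by
  by_cases h : ∃ a α β : ℕ, a ≠ α ∧ a ≠ β ∧ α ≠ β ∧ ¬ OctGood A B C a α β
  · obtain ⟨a0, α0, β0, h1, h2, h3, h4⟩ := h
    refine ⟨a0, α0, β0, fun a α β h5 h6 h7 h8 => ?_⟩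
    by_contra h9
    obtain ⟨b1, b2, b3⟩ := oct_bad hA hB hC h1 h2 h3 h4
    obtain ⟨c1, c2, c3⟩ := oct_bad hA hB hC h5 h6 h7 h9
    rcases h8 with h8 | h8 | h8
    · exact h8 ((b1 a).1 ((c1 a).2 rfl))
    · exact h8 ((b2 α).1 ((c2 α).2 rfl))
    · exact h8 ((b3 β).1 ((c3 β).2 rfl))
  · push Not at h
    exact ⟨0, 0, 0, fun a α β h5 h6 h7 _ => h a α β h5 h6 h7⟩

theorem pair_avoid (R S : Finset ℕ) (hR : 2 ≤ R.card) (hS : 2 ≤ S.card) (x y : ℕ) :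
    ∃ α ∈ R, ∃ β ∈ S, α ≠ β ∧ (α ≠ x ∨ β ≠ y) := by
  obtain ⟨α, hα, hαx⟩ := exists_ne_of_two hR x
  obtain ⟨β, hβ, hβα⟩ := exists_ne_of_two hS α
  exact ⟨α, hα, β, hβ, hβα.symm, Or.inl hαx⟩

/-- The gadget lemma: all but at most one precolouring `(a, b)` of the two terminals extend. -/
theorem gadget_core (L1 L2 A B C A' B' C' : Finset ℕ) (h1 : 4 ≤ L1.card) (h2 : 4 ≤ L2.card)
    (hA : 4 ≤ A.card) (hB : 4 ≤ B.card) (hC : 4 ≤ C.card)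
    (hA' : 4 ≤ A'.card) (hB' : 4 ≤ B'.card) (hC' : 4 ≤ C'.card) :
    ∃ a0 b0 : ℕ, ∀ a b : ℕ, (a ≠ a0 ∨ b ≠ b0) → ∃ α ∈ L1, ∃ β ∈ L2,
      α ≠ a ∧ α ≠ b ∧ β ≠ a ∧ β ≠ b ∧ α ≠ β ∧ OctGood A B C a α β ∧ OctGood A' B' C' b α β := by
  obtain ⟨a0, α0, β0, hu⟩ := oct_unique A B C hA hB hC
  obtain ⟨b0, α1, β1, hv⟩ := oct_unique A' B' C' hA' hB' hC'
  refine ⟨a0, b0, fun a b hab => ?_⟩
  rcases hab with h | h
  · obtain ⟨α, hα, β, hβ, hne, hav⟩ := pair_avoid _ _ (card_sdiff_pair L1 h1 a b)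
      (card_sdiff_pair L2 h2 a b) α1 β1
    simp only [Finset.mem_sdiff, Finset.mem_insert, Finset.mem_singleton, not_or] at hα hβ
    exact ⟨α, hα.1, β, hβ.1, hα.2.1, hα.2.2, hβ.2.1, hβ.2.2, hne,
      hu a α β (Ne.symm hα.2.1) (Ne.symm hβ.2.1) hne (Or.inl h),
      hv b α β (Ne.symm hα.2.2) (Ne.symm hβ.2.2) hne (Or.inr hav)⟩
  · obtain ⟨α, hα, β, hβ, hne, hav⟩ := pair_avoid _ _ (card_sdiff_pair L1 h1 a b)
      (card_sdiff_pair L2 h2 a b) α0 β0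
    simp only [Finset.mem_sdiff, Finset.mem_insert, Finset.mem_singleton, not_or] at hα hβ
    exact ⟨α, hα.1, β, hβ.1, hα.2.1, hα.2.2, hβ.2.1, hβ.2.2, hne,
      hu a α β (Ne.symm hα.2.1) (Ne.symm hβ.2.1) hne (Or.inr hav),
      hv b α β (Ne.symm hα.2.2) (Ne.symm hβ.2.2) hne (Or.inl h)⟩

/-- A path `p - q - r` with both ends adjacent to a vertex coloured `γ`. -/
def PathGood (A B C : Finset ℕ) (γ : ℕ) : Prop :=
  ∃ p ∈ A, ∃ q ∈ B, ∃ r ∈ C, p ≠ γ ∧ r ≠ γ ∧ p ≠ q ∧ q ≠ r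

theorem path_bad {A B C : Finset ℕ} (hA : 2 ≤ A.card) (hB : 2 ≤ B.card) (hC : 2 ≤ C.card)
    {γ : ℕ} (h : ¬ PathGood A B C γ) : ∃ p r, p ≠ r ∧ A = {γ, p} ∧ C = {γ, r} := by
  obtain ⟨p, hp, hpγ⟩ := exists_ne_of_two hA γ
  obtain ⟨r, hr, hrγ⟩ := exists_ne_of_two hC γ
  have key : ∀ p ∈ A, p ≠ γ → ∀ r ∈ C, r ≠ γ → ∀ q ∈ B, q = p ∨ q = r := by
    intro p hp hpγ r hr hrγ q hq
    by_contra hcon
    push Not at hcon
    exact h ⟨p, hp, q, hq, r, hr, hpγ, hrγ, hcon.1.symm, hcon.2⟩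
  have hBpr : ∀ p ∈ A, p ≠ γ → ∀ r ∈ C, r ≠ γ → p ∈ B ∧ r ∈ B ∧ p ≠ r := by
    intro p hp hpγ r hr hrγ
    obtain ⟨q1, hq1, hq1p⟩ := exists_ne_of_two hB p
    obtain ⟨q2, hq2, hq2r⟩ := exists_ne_of_two hB r
    have e1 : q1 = r := (key p hp hpγ r hr hrγ q1 hq1).resolve_left hq1p
    have e2 : q2 = p := (key p hp hpγ r hr hrγ q2 hq2).resolve_right hq2r
    subst e1; subst e2
    exact ⟨hq2, hq1, hq2r⟩
  obtain ⟨hpB, hrB, hpr⟩ := hBpr p hp hpγ r hr hrγ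
  refine ⟨p, r, hpr, ?_, ?_⟩
  · have hsub : A ⊆ {γ, p} := by
      intro x hx
      by_contra hcon
      simp only [Finset.mem_insert, Finset.mem_singleton, not_or] at hcon
      rcases key x hx hcon.1 r hr hrγ p hpB with h1 | h1
      · exact hcon.2 h1.symm
      · exact hpr h1
    exact Finset.eq_of_subset_of_card_le hsub (le_trans Finset.card_le_two hA)
  · have hsub : C ⊆ {γ, r} := by
      intro x hx
      by_contra hcon
      simp only [Finset.mem_insert, Finset.mem_singleton, not_or] at hcon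
      rcases key p hp hpγ x hx hcon.1 r hrB with h1 | h1
      · exact hpr h1.symm
      · exact hcon.2 h1.symm
    exact Finset.eq_of_subset_of_card_le hsub (le_trans Finset.card_le_two hC)

theorem path_one {A B C : Finset ℕ} (hA : 2 ≤ A.card) (hB : 2 ≤ B.card) (hC : 2 ≤ C.card)
    {γ γ' : ℕ} (hne : γ ≠ γ') : PathGood A B C γ ∨ PathGood A B C γ' := by
  by_contra hcon
  push Not at hcon
  obtain ⟨p, r, hpr, h1, h2⟩ := path_bad hA hB hC hcon.1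
  obtain ⟨p', r', hpr', h1', h2'⟩ := path_bad hA hB hC hcon.2
  have e1 : γ' ∈ A := h1' ▸ Finset.mem_insert_self _ _
  have e2 : γ' ∈ C := h2' ▸ Finset.mem_insert_self _ _
  rw [h1] at e1
  rw [h2] at e2
  simp only [Finset.mem_insert, Finset.mem_singleton] at e1 e2
  rcases e1 with e1 | e1
  · exact hne e1.symm
  · rcases e2 with e2 | e2
    · exact hne e2.symm
    · exact hpr (e1.symm.trans e2)

theorem path_three {A B C : Finset ℕ} (hA : 2 ≤ A.card) (hB : 2 ≤ B.card) (hC : 2 ≤ C.card)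
    (h : 3 ≤ A.card ∨ 3 ≤ C.card) (γ : ℕ) : PathGood A B C γ := by
  by_contra hcon
  obtain ⟨p, r, hpr, h1, h2⟩ := path_bad hA hB hC hcon
  rcases h with h | h
  · rw [h1] at h
    have : ({γ, p} : Finset ℕ).card ≤ 2 := Finset.card_le_two
    omega
  · rw [h2] at h
    have : ({γ, r} : Finset ℕ).card ≤ 2 := Finset.card_le_two
    omega

end Pool.Agent.H29.Tor
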