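import Pool.Agent.H29.Tor.Defs
import Pool.Agent.H29.Tor.Lists

set_option autoImplicit false

namespace Pool.Agent.H29.Tor

/-- Adjacency in the core: `0 = u`, `1 = v`, `2 = x`, `3,4,5 = c`, `6,7,8 = d`. -/
def adjC (c d : Fin 9) : Bool :=
  ((![508, 508, 363, 23, 43, 23, 135, 323, 135] : Fin 9 → ℕ) c).testBit d

/-- Adjacency in the gadget: `0 = u`, `1 = v`, and eight inner vertices. -/
def adjK (j k : Fin 10) : Bool :=
  ((![108, 780, 731, 439, 108, 89, 53, 780, 650, 390] : Fin 10 → ℕ) j).testBit k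

/-- The vertex type. -/
abbrev Vx := Fin 9 ⊕ (Fin 15 × Fin 8)

/-- The vertices of the `i`-th gadget. -/
def kap (i : Fin 15) : Fin 10 → Vx :=
  ![.inl 0, .inl 1, .inr (i, 0), .inr (i, 1), .inr (i, 2), .inr (i, 3), .inr (i, 4), .inr (i, 5),
    .inr (i, 6), .inr (i, 7)]

theorem adjC_symm : ∀ c d, adjC c d = adjC d c := by decide
theorem adjC_irrefl : ∀ c, adjC c c = false := by decide
theorem adjK_symm : ∀ c d, adjK c d = adjK d c := by decide
theorem adjK_irrefl : ∀ c, adjK c c = false := by decide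

theorem kap_inj (i : Fin 15) : Function.Injective (kap i) := by
  intro j k h
  fin_cases j <;> fin_cases k <;> simp [kap] at h ⊢

/-- The graph. -/
def TG : SimpleGraph Vx where
  Adj x y := (∃ c d, adjC c d = true ∧ x = .inl c ∧ y = .inl d) ∨
    (∃ i j k, adjK j k = true ∧ x = kap i j ∧ y = kap i k)
  symm := ⟨fun x y h => by
    rcases h with ⟨c, d, h, hx, hy⟩ | ⟨i, j, k, h, hx, hy⟩
    · exact Or.inl ⟨d, c, by rw [adjC_symm]; exact h, hy, hx⟩
    · exact Or.inr ⟨i, k, j, by rw [adjK_symm]; exact h, hy, hx⟩⟩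
  loopless := ⟨fun x h => by
    rcases h with ⟨c, d, h, hx, hy⟩ | ⟨i, j, k, h, hx, hy⟩
    · rw [hx] at hy
      rw [Sum.inl.inj hy, adjC_irrefl] at h
      exact absurd h (by decide)
    · rw [hx] at hy
      rw [kap_inj i hy, adjK_irrefl] at h
      exact absurd h (by decide)⟩

theorem TG_core {c d : Fin 9} (h : adjC c d = true) : TG.Adj (.inl c) (.inl d) :=
  Or.inl ⟨c, d, h, rfl, rfl⟩

theorem TG_gad (i : Fin 15) {j k : Fin 10} (h : adjK j k = true) : TG.Adj (kap i j) (kap i k) :=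
  Or.inr ⟨i, j, k, h, rfl, rfl⟩

/-- The 3-colouring. -/
def col3 : Vx → Fin 3 :=
  Sum.elim ![0, 0, 1, 2, 1, 2, 2, 1, 2] (fun p => ![1, 2, 0, 1, 2, 0, 1, 2] p.2)

theorem TG_colorable : TG.Colorable 3 := by
  refine ⟨SimpleGraph.Coloring.mk col3 ?_⟩
  intro x y h
  rcases h with ⟨c, d, h, hx, hy⟩ | ⟨i, j, k, h, hx, hy⟩
  · subst hx; subst hy
    revert c d h
    decide
  · subst hx; subst hy
    have key : ∀ j k : Fin 10, adjK j k = true →
        (![0, 0, 1, 2, 0, 1, 2, 0, 1, 2] : Fin 10 → Fin 3) j ≠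
          (![0, 0, 1, 2, 0, 1, 2, 0, 1, 2] : Fin 10 → Fin 3) k := by decide
    have hk : ∀ j : Fin 10, col3 (kap i j) = (![0, 0, 1, 2, 0, 1, 2, 0, 1, 2] : Fin 10 → Fin 3) j := by
      intro j
      fin_cases j <;> rfl
    rw [hk, hk]
    exact key j k h

/-- The bad lists on the core. -/
def LC : Fin 9 → Finset ℕ :=
  ![{0, 1, 2, 3}, {4, 5, 6, 7}, {3, 7, 8, 9}, {3, 7, 8, 10}, {3, 7, 10, 11}, {3, 7, 8, 11},
    {3, 7, 9, 10}, {3, 7, 10, 11}, {3, 7, 9, 11}]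

/-- The bad lists on a gadget. -/
def LK (a b : ℕ) : Fin 8 → Finset ℕ :=
  ![{a, b, 8, 9}, {a, b, 8, 9}, {8, 9, 10, 11}, {a, 9, 10, 11}, {a, 8, 10, 11}, {8, 9, 10, 11},
    {b, 8, 10, 11}, {b, 9, 10, 11}]

/-- The bad list assignment. -/
def badL : Vx → Finset ℕ :=
  Sum.elim LC (fun p => LK (p.1.val / 4) (4 + p.1.val % 4) p.2)

theorem badL_card : ∀ v, (badL v).card = 4 := by
  rintro (c | ⟨i, j⟩)
  · revert c; decide
  · revert i j; decide

theorem el12 {x p q r s : ℕ} (h : x ∈ ({p, q, r, s} : Finset ℕ)) (h1 : x ≠ p) (h2 : x ≠ q) :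
    x = r ∨ x = s := by
  simp only [Finset.mem_insert, Finset.mem_singleton] at h
  exact (h.resolve_left h1).resolve_left h2

theorem ne_of {x y z : ℕ} (h : x ≠ y) (e : y = z) : ¬ x = z := fun h' => h (h'.trans e.symm)

theorem three10 {x y z r s : ℕ} (hx : x = r ∨ x = s) (hy : y = r ∨ y = s) (hz : z = r ∨ z = s)
    (h1 : x ≠ y) (h2 : x ≠ z) (h3 : y ≠ z) : False := by
  omega

theorem core_contra (f : Fin 9 → ℕ) (h0 : f 0 = 3) (h1 : f 1 = 7)
    (hL : ∀ j, f j ∈ LC j) (hC : ∀ {p q : Fin 9}, adjC p q = true → f p ≠ f q) : False := by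
  have m2 : f 2 ∈ ({3, 7, 8, 9} : Finset ℕ) := hL 2
  have m3 : f 3 ∈ ({3, 7, 8, 10} : Finset ℕ) := hL 3
  have m4 : f 4 ∈ ({3, 7, 10, 11} : Finset ℕ) := hL 4
  have m5 : f 5 ∈ ({3, 7, 8, 11} : Finset ℕ) := hL 5
  have m6 : f 6 ∈ ({3, 7, 9, 10} : Finset ℕ) := hL 6
  have m7 : f 7 ∈ ({3, 7, 10, 11} : Finset ℕ) := hL 7
  have m8 : f 8 ∈ ({3, 7, 9, 11} : Finset ℕ) := hL 8
  have a2 := el12 m2 (ne_of (hC (p := 2) (q := 0) (by decide)) h0) (ne_of (hC (p := 2) (q := 1) (by decide)) h1)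
  have a3 := el12 m3 (ne_of (hC (p := 3) (q := 0) (by decide)) h0) (ne_of (hC (p := 3) (q := 1) (by decide)) h1)
  have a4 := el12 m4 (ne_of (hC (p := 4) (q := 0) (by decide)) h0) (ne_of (hC (p := 4) (q := 1) (by decide)) h1)
  have a5 := el12 m5 (ne_of (hC (p := 5) (q := 0) (by decide)) h0) (ne_of (hC (p := 5) (q := 1) (by decide)) h1)
  have a6 := el12 m6 (ne_of (hC (p := 6) (q := 0) (by decide)) h0) (ne_of (hC (p := 6) (q := 1) (by decide)) h1)
  have a7 := el12 m7 (ne_of (hC (p := 7) (q := 0) (by decide)) h0) (ne_of (hC (p := 7) (q := 1) (by decide)) h1)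
  have a8 := el12 m8 (ne_of (hC (p := 8) (q := 0) (by decide)) h0) (ne_of (hC (p := 8) (q := 1) (by decide)) h1)
  clear m2 m3 m4 m5 m6 m7 m8
  rcases a2 with n2 | n2
  · have n3 : f 3 = 10 := a3.resolve_left (ne_of (hC (p := 3) (q := 2) (by decide)) n2)
    have n5 : f 5 = 11 := a5.resolve_left (ne_of (hC (p := 5) (q := 2) (by decide)) n2)
    rcases a4 with h | h
    · exact hC (p := 4) (q := 3) (by decide) (h.trans n3.symm)
    · exact hC (p := 4) (q := 5) (by decide) (h.trans n5.symm)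
  · have n6 : f 6 = 10 := a6.resolve_left (ne_of (hC (p := 6) (q := 2) (by decide)) n2)
    have n8 : f 8 = 11 := a8.resolve_left (ne_of (hC (p := 8) (q := 2) (by decide)) n2)
    rcases a7 with h | h
    · exact hC (p := 7) (q := 6) (by decide) (h.trans n6.symm)
    · exact hC (p := 7) (q := 8) (by decide) (h.trans n8.symm)

theorem gad_contra (a b : ℕ) (f : Fin 10 → ℕ) (h0 : f 0 = a) (h1 : f 1 = b)
    (m2 : f 2 ∈ ({a, b, 8, 9} : Finset ℕ)) (m3 : f 3 ∈ ({a, b, 8, 9} : Finset ℕ))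
    (m4 : f 4 ∈ ({8, 9, 10, 11} : Finset ℕ)) (m5 : f 5 ∈ ({a, 9, 10, 11} : Finset ℕ))
    (m6 : f 6 ∈ ({a, 8, 10, 11} : Finset ℕ)) (m7 : f 7 ∈ ({8, 9, 10, 11} : Finset ℕ))
    (m8 : f 8 ∈ ({b, 8, 10, 11} : Finset ℕ)) (m9 : f 9 ∈ ({b, 9, 10, 11} : Finset ℕ))
    (hK : ∀ {j k : Fin 10}, adjK j k = true → f j ≠ f k) : False := by
  subst h0
  subst h1
  have n2 := el12 m2 (hK (by decide)) (hK (by decide))
  have n3 := el12 m3 (hK (by decide)) (hK (by decide))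
  have n23 := hK (j := 3) (k := 2) (by decide)
  rcases n2 with n2 | n2
  · have n3 : f 3 = 9 := n3.resolve_left (ne_of n23 n2)
    exact three10 (el12 m4 (ne_of (hK (j := 4) (k := 2) (by decide)) n2)
        (ne_of (hK (j := 4) (k := 3) (by decide)) n3))
      (el12 m5 (hK (by decide)) (ne_of (hK (j := 5) (k := 3) (by decide)) n3))
      (el12 m6 (hK (by decide)) (ne_of (hK (j := 6) (k := 2) (by decide)) n2))
      (hK (by decide)) (hK (by decide)) (hK (by decide))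
  · have n3 : f 3 = 8 := n3.resolve_right (ne_of n23 n2)
    exact three10 (el12 m7 (ne_of (hK (j := 7) (k := 3) (by decide)) n3)
        (ne_of (hK (j := 7) (k := 2) (by decide)) n2))
      (el12 m8 (hK (by decide)) (ne_of (hK (j := 8) (k := 3) (by decide)) n3))
      (el12 m9 (hK (by decide)) (ne_of (hK (j := 9) (k := 2) (by decide)) n2))
      (hK (by decide)) (hK (by decide)) (hK (by decide))

theorem badL_bad : ¬ ∃ c : Vx → ℕ, (∀ v, c v ∈ badL v) ∧ ∀ v w, TG.Adj v w → c v ≠ c w := by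
  rintro ⟨c, hc, hadj⟩
  have hu : c (.inl 0) ∈ ({0, 1, 2, 3} : Finset ℕ) := hc (.inl 0)
  have hv : c (.inl 1) ∈ ({4, 5, 6, 7} : Finset ℕ) := hc (.inl 1)
  simp only [Finset.mem_insert, Finset.mem_singleton] at hu hv
  by_cases h37 : c (.inl 0) = 3 ∧ c (.inl 1) = 7
  · exact core_contra (fun j => c (.inl j)) h37.1 h37.2 (fun j => hc (.inl j))
      (fun h => hadj _ _ (TG_core h))
  · obtain ⟨i, hi1, hi2⟩ : ∃ i : Fin 15, i.val / 4 = c (.inl 0) ∧ 4 + i.val % 4 = c (.inl 1) := by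
      refine ⟨⟨4 * c (.inl 0) + (c (.inl 1) - 4), by omega⟩, ?_, ?_⟩
      · simp only; omega
      · simp only; omega
    exact gad_contra (i.val / 4) (4 + i.val % 4) (fun j => c (kap i j)) hi1.symm hi2.symm
      (hc (.inr (i, 0))) (hc (.inr (i, 1))) (hc (.inr (i, 2))) (hc (.inr (i, 3)))
      (hc (.inr (i, 4))) (hc (.inr (i, 5))) (hc (.inr (i, 6))) (hc (.inr (i, 7)))
      (fun h => hadj _ _ (TG_gad i h))

end Pool.Agent.H29.Tor
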