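import Mathlib

set_option autoImplicit false

namespace Pool.Agent.H29.Tor

/-- Kernels of bipartite digraphs. -/
theorem kernel_exists {V : Type*} [DecidableEq V] (out : V → Finset V) (s : V → Bool)
    (hout : ∀ v w, w ∈ out v → s v ≠ s w) (n : ℕ) :
    ∀ S : Finset V, S.card = n → ∃ K ⊆ S, (∀ v ∈ K, ∀ w ∈ K, w ∉ out v) ∧
      ∀ v ∈ S, v ∉ K → ∃ w ∈ K, w ∈ out v := by
  induction n using Nat.strong_induction_on with
  | _ n ih =>
    intro S hS
    by_cases hsink : ∃ v ∈ S, out v ∩ S = ∅
    · obtain ⟨v, hv, hvs⟩ := hsink
      set S' := S.filter (fun w => w ≠ v ∧ v ∉ out w) with hS'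
      have hlt : S'.card < n := by
        rw [← hS]
        apply Finset.card_lt_card
        refine ⟨Finset.filter_subset _ _, fun h => ?_⟩
        have := h hv
        rw [hS', Finset.mem_filter] at this
        exact this.2.1 rfl
      obtain ⟨K, hKS, hind, hdom⟩ := ih S'.card hlt S' rfl
      refine ⟨insert v K, ?_, ?_, ?_⟩
      · intro w hw
        rcases Finset.mem_insert.1 hw with h | h
        · exact h ▸ hv
        · exact (Finset.mem_filter.1 (hKS h)).1
      · intro a ha b hb hab
        rcases Finset.mem_insert.1 ha with h | h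
        · subst h
          have : b ∈ out a ∩ S := by
            rcases Finset.mem_insert.1 hb with h' | h'
            · subst h'; exact Finset.mem_inter.2 ⟨hab, hv⟩
            · exact Finset.mem_inter.2 ⟨hab, (Finset.mem_filter.1 (hKS h')).1⟩
          rw [hvs] at this
          exact absurd this (Finset.notMem_empty _)
        · rcases Finset.mem_insert.1 hb with h' | h'
          · subst h'
            exact (Finset.mem_filter.1 (hKS h)).2.2 hab
          · exact hind a h b h' hab
      · intro w hw hwK
        have hwv : w ≠ v := fun h => hwK (h ▸ Finset.mem_insert_self _ _)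
        have hwK' : w ∉ K := fun h => hwK (Finset.mem_insert_of_mem h)
        by_cases hvw : v ∈ out w
        · exact ⟨v, Finset.mem_insert_self _ _, hvw⟩
        · obtain ⟨z, hz, hzw⟩ := hdom w (Finset.mem_filter.2 ⟨hw, hwv, hvw⟩) hwK'
          exact ⟨z, Finset.mem_insert_of_mem hz, hzw⟩
    · push Not at hsink
      refine ⟨S.filter (fun v => s v = false), Finset.filter_subset _ _, ?_, ?_⟩
      · intro v hv w hw hvw
        have h1 := (Finset.mem_filter.1 hv).2
        have h2 := (Finset.mem_filter.1 hw).2
        exact hout v w hvw (h1.trans h2.symm)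
      · intro v hv hvK
        have hsv : s v = true := by
          by_contra h
          exact hvK (Finset.mem_filter.2 ⟨hv, by simpa using h⟩)
        obtain ⟨w, hw⟩ := hsink v hv
        rw [Finset.mem_inter] at hw
        refine ⟨w, Finset.mem_filter.2 ⟨hw.2, ?_⟩, hw.1⟩
        have := hout v w hw.1
        rw [hsv] at this
        cases h : s w
        · rfl
        · exact absurd h.symm this

/-- The kernel method: if every vertex has more colours than out-neighbours, there is a proper
colouring from the lists. -/
theorem color_of_orientation {V : Type*} [DecidableEq V] (H : SimpleGraph V)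
    (out : V → Finset V) (s : V → Bool)
    (hout : ∀ v w, w ∈ out v → s v ≠ s w)
    (hadj : ∀ v w, H.Adj v w → w ∈ out v ∨ v ∈ out w) (n : ℕ) :
    ∀ (A : Finset V) (L : V → Finset ℕ), A.card = n →
      (∀ v ∈ A, (out v ∩ A).card < (L v).card) →
      ∃ c : V → ℕ, (∀ v ∈ A, c v ∈ L v) ∧ ∀ v ∈ A, ∀ w ∈ A, H.Adj v w → c v ≠ c w := by
  induction n using Nat.strong_induction_on with
  | _ n ih =>
    intro A L hA hL
    rcases A.eq_empty_or_nonempty with h | ⟨v0, hv0⟩
    · subst h
      exact ⟨fun _ => 0, by simp, by simp⟩
    have hne : (L v0).Nonempty := Finset.card_pos.1 (lt_of_le_of_lt (Nat.zero_le _) (hL v0 hv0))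
    obtain ⟨α, hα⟩ := hne
    obtain ⟨K, hKS, hind, hdom⟩ := kernel_exists out s hout _ (A.filter (fun v => α ∈ L v)) rfl
    have hKA : K ⊆ A := fun x hx => (Finset.mem_filter.1 (hKS hx)).1
    have hKne : K.Nonempty := by
      by_cases h : v0 ∈ K
      · exact ⟨v0, h⟩
      · obtain ⟨w, hw, _⟩ := hdom v0 (Finset.mem_filter.2 ⟨hv0, hα⟩) h
        exact ⟨w, hw⟩
    have hlt : (A \ K).card < n := by
      rw [← hA]
      apply Finset.card_lt_card
      refine ⟨Finset.sdiff_subset, fun h => ?_⟩
      obtain ⟨k, hk⟩ := hKne
      exact (Finset.mem_sdiff.1 (h (hKA hk))).2 hk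
    obtain ⟨c, hc1, hc2⟩ := ih (A \ K).card hlt (A \ K) (fun v => (L v).erase α) rfl (by
      intro v hv
      rw [Finset.mem_sdiff] at hv
      by_cases hαv : α ∈ L v
      · obtain ⟨w, hw, hwv⟩ := hdom v (Finset.mem_filter.2 ⟨hv.1, hαv⟩) hv.2
        have h1 : (out v ∩ (A \ K)).card < (out v ∩ A).card := by
          apply Finset.card_lt_card
          refine ⟨Finset.inter_subset_inter_left Finset.sdiff_subset, fun h => ?_⟩
          have := h (Finset.mem_inter.2 ⟨hwv, hKA hw⟩)
          rw [Finset.mem_inter, Finset.mem_sdiff] at this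
          exact this.2.2 hw
        rw [Finset.card_erase_of_mem hαv]
        have := hL v hv.1
        omega
      · rw [Finset.erase_eq_of_notMem hαv]
        exact lt_of_le_of_lt (Finset.card_le_card
          (Finset.inter_subset_inter_left Finset.sdiff_subset)) (hL v hv.1))
    refine ⟨fun v => if v ∈ K then α else c v, ?_, ?_⟩
    · intro v hv
      by_cases h : v ∈ K
      · simp only [h, if_true]
        exact (Finset.mem_filter.1 (hKS h)).2
      · simp only [h, if_false]
        exact Finset.mem_of_mem_erase (hc1 v (Finset.mem_sdiff.2 ⟨hv, h⟩))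
    · intro v hv w hw hvw
      by_cases h : v ∈ K <;> by_cases h' : w ∈ K
      · rcases hadj v w hvw with h1 | h1
        · exact absurd h1 (hind v h w h')
        · exact absurd h1 (hind w h' v h)
      · simp only [h, h', if_true, if_false]
        intro he
        have := hc1 w (Finset.mem_sdiff.2 ⟨hw, h'⟩)
        rw [← he] at this
        exact Finset.notMem_erase _ _ this
      · simp only [h, h', if_true, if_false]
        intro he
        have := hc1 v (Finset.mem_sdiff.2 ⟨hv, h⟩)
        rw [he] at this
        exact Finset.notMem_erase _ _ this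
      · simp only [h, h', if_false]
        exact hc2 v (Finset.mem_sdiff.2 ⟨hv, h⟩) w (Finset.mem_sdiff.2 ⟨hw, h'⟩) hvw

end Pool.Agent.H29.Tor
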