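import Pool.Agent.H29.Tor.Orient
import Pool.Agent.H29.Tor.Kernel

set_option autoImplicit false

namespace Pool.Agent.H29.Tor

/-- Patterns: every 0/1-vector which is `false` at `0` is the digit sequence of some `2 * p`. -/
theorem exists_pattern {n : ℕ} (t : Fin (n + 1) → Bool) (h0 : t 0 = false) :
    ∃ p < 2 ^ n, ∀ j : Fin (n + 1), (2 * p).testBit j = t j := by
  refine ⟨Nat.ofBits t / 2, ?_, ?_⟩
  · have := Nat.ofBits_lt_two_pow t
    rw [pow_succ] at this
    omega
  · intro j
    have h1 : (Nat.ofBits t).testBit 0 = false := by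
      rw [Nat.testBit_ofBits_lt t 0 (Nat.succ_pos n)]
      exact h0
    rw [Nat.testBit_zero] at h1
    have h2 : 2 * (Nat.ofBits t / 2) = Nat.ofBits t := by
      have : ¬ (Nat.ofBits t % 2 = 1) := by simpa using h1
      omega
    rw [h2, Nat.testBit_ofBits_lt t j j.2]

theorem payK_or {p : ℕ} {j k : Fin 10} (h : adjK j k = true)
    (hne : (2 * p).testBit j ≠ (2 * p).testBit k) : payK p j k = true ∨ payK p k j = true := by
  have hjk : j ≠ k := by
    rintro rfl
    rw [adjK_irrefl] at h
    exact absurd h (by decide)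
  have hk : adjK k j = true := by rw [adjK_symm]; exact h
  have e : idxK k j = idxK j k := idxK_symm k j
  unfold payK
  rw [h, hk, e]
  have h3 : ((2 * p).testBit j != (2 * p).testBit k) = true := by simpa using hne
  have h4 : ((2 * p).testBit k != (2 * p).testBit j) = true := by simpa using hne.symm
  rw [h3, h4]
  simp only [Bool.true_and, beq_iff_eq]
  rcases lt_or_gt_of_ne hjk with h5 | h5
  · rw [decide_eq_false (not_lt.2 h5.le), decide_eq_true h5]
    exact (Bool.eq_false_or_eq_true _).symm
  · rw [decide_eq_false (not_lt.2 h5.le), decide_eq_true h5]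
    exact Bool.eq_false_or_eq_true _

theorem payC_or {p : ℕ} {j k : Fin 9} (h : adjC j k = true)
    (hne : (2 * p).testBit j ≠ (2 * p).testBit k) : payC p j k = true ∨ payC p k j = true := by
  have hjk : j ≠ k := by
    rintro rfl
    rw [adjC_irrefl] at h
    exact absurd h (by decide)
  have hk : adjC k j = true := by rw [adjC_symm]; exact h
  have e : idxC k j = idxC j k := idxC_symm k j
  unfold payC
  rw [h, hk, e]
  have h3 : ((2 * p).testBit j != (2 * p).testBit k) = true := by simpa using hne
  have h4 : ((2 * p).testBit k != (2 * p).testBit j) = true := by simpa using hne.symm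
  rw [h3, h4]
  simp only [Bool.true_and, beq_iff_eq]
  rcases lt_or_gt_of_ne hjk with h5 | h5
  · rw [decide_eq_false (not_lt.2 h5.le), decide_eq_true h5]
    exact (Bool.eq_false_or_eq_true _).symm
  · rw [decide_eq_false (not_lt.2 h5.le), decide_eq_true h5]
    exact Bool.eq_false_or_eq_true _

theorem payK_ne {p : ℕ} {j k : Fin 10} (h : payK p j k = true) :
    (2 * p).testBit j ≠ (2 * p).testBit k := by
  unfold payK at h
  rw [Bool.and_eq_true, Bool.and_eq_true] at h
  simpa using h.1.2

theorem payC_ne {p : ℕ} {j k : Fin 9} (h : payC p j k = true) :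
    (2 * p).testBit j ≠ (2 * p).testBit k := by
  unfold payC at h
  rw [Bool.and_eq_true, Bool.and_eq_true] at h
  simpa using h.1.2

/-- the gadget index of an inner vertex -/
def inn (j : Fin 8) : Fin 10 := ![2, 3, 4, 5, 6, 7, 8, 9] j

theorem kap_inn (i : Fin 15) (j : Fin 8) : kap i (inn j) = .inr (i, j) := by
  fin_cases j <;> rfl

theorem inn_or : ∀ j : Fin 10, j.val < 2 ∨ ∃ l : Fin 8, j = inn l := by decide

theorem payK_inn {p : ℕ} (hp : p < 512) {j k : Fin 10} (h : payK p j k = true) :
    ∃ l : Fin 8, j = inn l := by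
  rcases inn_or j with h1 | h1
  · exfalso
    have h2 := payK_le p hp j
    rw [if_pos h1] at h2
    have h3 : k ∈ Finset.univ.filter (fun k => payK p j k = true) :=
      Finset.mem_filter.2 ⟨Finset.mem_univ _, h⟩
    have := Finset.card_pos.2 ⟨k, h3⟩
    omega
  · exact h1

/-- Every bipartite subgraph is 3-choosable. -/
theorem choosable_three (H : SimpleGraph Vx) (hH : H ≤ TG) (h2 : H.Colorable 2) :
    Choosable H 3 := by
  classical
  obtain ⟨s, hs0, hs⟩ : ∃ s : Vx → Bool, s (.inl 0) = false ∧ ∀ v w, H.Adj v w → s v ≠ s w := by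
    obtain ⟨c⟩ := h2
    refine ⟨fun v => xor (decide (c v = 0)) (decide (c (.inl 0) = 0)), ?_, ?_⟩
    · simp
    · intro v w hvw he
      have h1 := c.valid hvw
      have h3 : ∀ x y z : Fin 2, x ≠ y →
          xor (decide (x = 0)) (decide (z = 0)) ≠ xor (decide (y = 0)) (decide (z = 0)) := by
        decide
      exact h3 _ _ _ h1 he
  obtain ⟨q, hq, hqt⟩ := exists_pattern (fun c : Fin 9 => s (.inl c)) hs0
  have hpat := fun i : Fin 15 => exists_pattern (fun c : Fin 10 => s (kap i c)) hs0
  choose p hp hpt using hpat
  let out : Vx → Finset Vx := fun x => match x with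
    | .inl c => (Finset.univ.filter (fun k => payC q c k = true)).image (fun k => (.inl k : Vx))
    | .inr (i, j) => (Finset.univ.filter (fun k => payK (p i) (inn j) k = true)).image (kap i)
  have hout : ∀ v w, w ∈ out v → s v ≠ s w := by
    rintro (c | ⟨i, j⟩) w hw
    · simp only [out, Finset.mem_image, Finset.mem_filter, Finset.mem_univ, true_and] at hw
      obtain ⟨k, hk, rfl⟩ := hw
      have := payC_ne hk
      rw [hqt, hqt] at this
      exact this
    · simp only [out, Finset.mem_image, Finset.mem_filter, Finset.mem_univ, true_and] at hw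
      obtain ⟨k, hk, rfl⟩ := hw
      have := payK_ne hk
      rw [hpt, hpt, kap_inn] at this
      exact this
  have hadj : ∀ v w, H.Adj v w → w ∈ out v ∨ v ∈ out w := by
    intro v w hvw
    have hne := hs v w hvw
    rcases hH hvw with ⟨c, d, h, rfl, rfl⟩ | ⟨i, j, k, h, rfl, rfl⟩
    · have hne' : (2 * q).testBit c ≠ (2 * q).testBit d := by rw [hqt, hqt]; exact hne
      rcases payC_or h hne' with h1 | h1
      · left
        simp only [out, Finset.mem_image, Finset.mem_filter, Finset.mem_univ, true_and]
        exact ⟨d, h1, rfl⟩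
      · right
        simp only [out, Finset.mem_image, Finset.mem_filter, Finset.mem_univ, true_and]
        exact ⟨c, h1, rfl⟩
    · have hne' : (2 * p i).testBit j ≠ (2 * p i).testBit k := by rw [hpt, hpt]; exact hne
      rcases payK_or h hne' with h1 | h1
      · left
        obtain ⟨l, rfl⟩ := payK_inn (hp i) h1
        rw [kap_inn]
        simp only [out, Finset.mem_image, Finset.mem_filter, Finset.mem_univ, true_and]
        exact ⟨k, h1, rfl⟩
      · right
        obtain ⟨l, rfl⟩ := payK_inn (hp i) h1
        rw [kap_inn]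
        simp only [out, Finset.mem_image, Finset.mem_filter, Finset.mem_univ, true_and]
        exact ⟨j, h1, rfl⟩
  have hcard : ∀ v, (out v).card ≤ 2 := by
    rintro (c | ⟨i, j⟩)
    · exact le_trans Finset.card_image_le (payC_le q hq c)
    · refine le_trans Finset.card_image_le (le_trans (payK_le (p i) (hp i) (inn j)) ?_)
      split_ifs <;> omega
  intro L hL
  obtain ⟨c, hc1, hc2⟩ := color_of_orientation H out s hout hadj _ Finset.univ L rfl (by
    intro v _
    rw [Finset.inter_univ]
    have := hcard v
    have := hL v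
    omega)
  exact ⟨c, fun v => hc1 v (Finset.mem_univ _),
    fun v w h => hc2 v (Finset.mem_univ _) w (Finset.mem_univ _) h⟩

end Pool.Agent.H29.Tor
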