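import Pool.Agent.H29.Tor.Embed
import Pool.Agent.H29.Tor.Three

set_option autoImplicit false

namespace Pool.Agent.H29.Tor

open SimpleGraph

theorem choosable_card {V : Type*} [Fintype V] (G : SimpleGraph V) :
    Choosable G (Fintype.card V) := by
  classical
  intro L hL
  obtain ⟨f, hf, hfL⟩ := (Finset.all_card_le_biUnion_card_iff_exists_injective L).1 (by
    intro s
    rcases s.eq_empty_or_nonempty with h | ⟨x, hx⟩
    · simp [h]
    · exact le_trans (Finset.card_le_univ s) (le_trans (hL x)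
        (Finset.card_le_card (Finset.subset_biUnion_of_mem L hx))))
  exact ⟨f, hfL, fun v w h he => h.ne (hf he)⟩

theorem choiceNumber_le {V : Type*} {G : SimpleGraph V} {k : ℕ} (h : Choosable G k) :
    choiceNumber G ≤ k := Nat.sInf_le h

theorem choiceNumber_TG : 5 ≤ choiceNumber TG := by
  by_contra hcon
  have h1 : Choosable TG (choiceNumber TG) :=
    Nat.sInf_mem (s := {k | Choosable TG k}) ⟨_, choosable_card TG⟩
  exact badL_bad (h1 badL (fun v => by rw [badL_card]; omega))

theorem toNat_chrom_le {V : Type*} {G : SimpleGraph V} {k : ℕ} (h : G.Colorable k) :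
    G.chromaticNumber.toNat ≤ k :=
  ENat.toNat_le_of_le_natCast h.chromaticNumber_le

theorem jump_TG : 2 ≤ jump TG := by
  unfold jump
  have h1 := choiceNumber_TG
  have h2 := toNat_chrom_le TG_colorable
  omega

theorem coe_choosable (H : TG.Subgraph) {k : ℕ} (h : Choosable H.spanningCoe k) :
    Choosable H.coe k := by
  classical
  intro L hL
  obtain ⟨c, hc1, hc2⟩ := h (fun v => if hv : v ∈ H.verts then L ⟨v, hv⟩ else Finset.range k) (by
    intro v
    split_ifs with hv
    · exact hL _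
    · simp)
  refine ⟨fun v => c v.1, ?_, ?_⟩
  · intro v
    have := hc1 v.1
    rwa [dif_pos v.2] at this
  · intro v w hvw
    exact hc2 v.1 w.1 hvw

theorem coe_colorable (H : TG.Subgraph) (h : H.coe.Colorable 2) : H.spanningCoe.Colorable 2 := by
  classical
  obtain ⟨c⟩ := h
  refine ⟨SimpleGraph.Coloring.mk (fun v => if hv : v ∈ H.verts then c ⟨v, hv⟩ else 0) ?_⟩
  intro v w hvw
  have hv : v ∈ H.verts := H.edge_vert hvw
  have hw : w ∈ H.verts := H.edge_vert (H.adj_symm hvw)
  rw [dif_pos hv, dif_pos hw]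
  exact c.valid (v := ⟨v, hv⟩) (w := ⟨w, hw⟩) hvw

theorem not_full (H : TG.Subgraph) (hp : IsPlanar H.coe) :
    ¬ Full33 (fun p q => H.spanningCoe.Adj (.inl p) (.inl q)) := by
  rintro ⟨⟨h1, h2, h3⟩, ⟨h4, h5, h6⟩, h7, h8, h9⟩
  have m0 : (.inl 0 : Vx) ∈ H.verts := H.edge_vert h1
  have m1 : (.inl 1 : Vx) ∈ H.verts := H.edge_vert h4
  have m2 : (.inl 2 : Vx) ∈ H.verts := H.edge_vert h7
  have m3 : (.inl 3 : Vx) ∈ H.verts := H.edge_vert (H.adj_symm h1)
  have m5 : (.inl 5 : Vx) ∈ H.verts := H.edge_vert (H.adj_symm h2)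
  have m6 : (.inl 6 : Vx) ∈ H.verts := H.edge_vert (H.adj_symm h3)
  have hne : ∀ {p q : Fin 9} (hp : (.inl p : Vx) ∈ H.verts) (hq : (.inl q : Vx) ∈ H.verts),
      p ≠ q → (⟨.inl p, hp⟩ : H.verts) ≠ ⟨.inl q, hq⟩ := by
    intro p q hp hq h he
    exact h (Sum.inl.inj (congrArg Subtype.val he))
  have : Finite H.verts := inferInstance
  exact not_planar_of_k33 (G := H.coe) (a₁ := ⟨.inl 0, m0⟩) (a₂ := ⟨.inl 1, m1⟩)
    (a₃ := ⟨.inl 2, m2⟩) (b₁ := ⟨.inl 3, m3⟩) (b₂ := ⟨.inl 5, m5⟩) (b₃ := ⟨.inl 6, m6⟩)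
    (hne _ _ (by decide)) (hne _ _ (by decide)) (hne _ _ (by decide)) (hne _ _ (by decide))
    (hne _ _ (by decide)) (hne _ _ (by decide)) h1 h2 h3 h4 h5 h6 h7 h8 h9 hp

theorem jump_sub (H : TG.Subgraph) (hp : IsPlanar H.coe) : jump H.coe < 2 := by
  have hle : H.spanningCoe ≤ TG := H.spanningCoe_le
  have h4 : Choosable H.coe 4 := coe_choosable H (choosable_four _ hle (not_full H hp))
  have h3col : H.coe.Colorable 3 := SimpleGraph.Colorable.of_hom H.hom TG_colorable
  have hne : H.coe.chromaticNumber ≠ ⊤ :=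
    SimpleGraph.chromaticNumber_ne_top_iff_exists.2 ⟨3, h3col⟩
  have hcol := SimpleGraph.colorable_of_chromaticNumber_ne_top hne
  unfold jump
  by_cases h3 : 3 ≤ H.coe.chromaticNumber.toNat
  · have := choiceNumber_le h4
    omega
  · by_cases h2 : 2 ≤ H.coe.chromaticNumber.toNat
    · have hcol2 : H.coe.Colorable 2 := hcol.mono (by omega)
      have := choiceNumber_le (coe_choosable H (choosable_three _ hle (coe_colorable H hcol2)))
      omega
    · have hcol1 : H.coe.Colorable 1 := hcol.mono (by omega)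
      have h1 : Choosable H.coe 1 := by
        intro L hL
        have hex : ∀ v, ∃ x, x ∈ L v := fun v => Finset.card_pos.1 (hL v)
        choose c hc using hex
        refine ⟨c, hc, fun v w hvw => ?_⟩
        obtain ⟨d⟩ := hcol1
        exact absurd (Subsingleton.elim (d v) (d w)) (d.valid hvw)
      have := choiceNumber_le h1
      omega

/-- There is a connected nonplanar toroidal graph with jump at least `2`, all of whose planar
subgraphs have jump less than `2`. -/
theorem main : ∃ (V : Type) (_ : Fintype V) (G : SimpleGraph V),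
    G.Connected ∧ IsToroidal G ∧ ¬ IsPlanar G ∧ 2 ≤ jump G ∧
      ∀ H : G.Subgraph, IsPlanar H.coe → jump H.coe < 2 :=
  ⟨Vx, inferInstance, TG, TG_connected, TG_toroidal, TG_not_planar, jump_TG, jump_sub⟩

end Pool.Agent.H29.Tor
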