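import Pool.Agent.H29.Tor.Graph

set_option autoImplicit false

/-!
Tables for a rotation system of genus one.
-/

namespace Pool.Agent.H29.Tor

/-- raw darts: in the core, or in one of the gadgets -/
abbrev Raw := (Fin 9 × Fin 9) ⊕ (Fin 15 × (Fin 10 × Fin 10))

/-- digit lookup -/
def dig (N b n : ℕ) (j k : ℕ) : ℕ := N / 2 ^ (b * (n * j + k)) % 2 ^ b

def nC (c d : ℕ) : Fin 9 := Fin.ofNat 9 (dig 0x172100000068010000027000010024000001053000000142503100068087436500760854300 4 9 c d)
def pC (c d : ℕ) : Fin 9 := Fin.ofNat 9 (dig 0x10000027001000086000000172000000142000100035000010024001806053763254000587432000 4 9 c d)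
def nK (c d : ℕ) : Fin 10 := Fin.ofNat 10 (dig 0x720000180109000703083000029000000050402000403000600026053000180420705703006409129000080000005300600 4 10 c d)
def pK (c d : ℕ) : Fin 10 := Fin.ofNat 10 (dig 0x180000720703000109029000083000000420005000006400300053026000720050481109403700683000009000002605000 4 10 c d)
def rkC (c d : ℕ) : ℕ := dig 0x20000013200000031010000320000020031000301020000020013003104025654123000456321000 4 9 c d
def rkK (c d : ℕ) : ℕ := dig 0x120000300302000100001000023000000210003000300100200032010000100450623102504300621000003000001203000 4 10 c d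
def lC (c d : ℕ) : ℕ := dig 0x5800001764201400000b1806000009530000004041ca0000e0080c200000300090ec0c281204016a4a0e66000520c4106c00 5 9 c d
def lK (c d : ℕ) : ℕ := dig 0x5d0000930d0b00040509d0000b6000000c8020100010ca000000ca078000b600a074f30980760e2540000f3000002100e00 4 10 c d

/-- validity of a raw dart -/
def valid : Raw → Bool
  | .inl (c, d) => adjC c d
  | .inr (_, (j, k)) => adjK j k

/-- reversal -/
def rev : Raw → Raw
  | .inl (c, d) => .inl (d, c)
  | .inr (i, (j, k)) => .inr (i, (k, j))

/-- next dart in the rotation -/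
def nxt : Raw → Raw
  | .inl (c, d) =>
    if c = 0 then (if d = 6 then .inr (0, (0, 2)) else .inl (0, nC 0 d))
    else if c = 1 then (if d = 8 then .inr (14, (1, 3)) else .inl (1, nC 1 d))
    else .inl (c, nC c d)
  | .inr (i, (j, k)) =>
    if j = 0 then
      (if k = 3 then (if i = 14 then .inl (0, 2) else .inr (i + 1, (0, 2))) else .inr (i, (0, nK 0 k)))
    else if j = 1 then
      (if k = 2 then (if i = 0 then .inl (1, 2) else .inr (i - 1, (1, 3))) else .inr (i, (1, nK 1 k)))
    else .inr (i, (j, nK j k))

/-- previous dart in the rotation -/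
def prv : Raw → Raw
  | .inl (c, d) =>
    if c = 0 then (if d = 2 then .inr (14, (0, 3)) else .inl (0, pC 0 d))
    else if c = 1 then (if d = 2 then .inr (0, (1, 2)) else .inl (1, pC 1 d))
    else .inl (c, pC c d)
  | .inr (i, (j, k)) =>
    if j = 0 then
      (if k = 2 then (if i = 0 then .inl (0, 6) else .inr (i - 1, (0, 3))) else .inr (i, (0, pK 0 k)))
    else if j = 1 then
      (if k = 3 then (if i = 14 then .inl (1, 8) else .inr (i + 1, (1, 2))) else .inr (i, (1, pK 1 k)))
    else .inr (i, (j, pK j k))

/-- position in the rotation -/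
def rk : Raw → ℕ
  | .inl (c, d) => rkC c d
  | .inr (i, (j, k)) =>
    if j = 0 then 7 + 4 * i.val + rkK 0 k
    else if j = 1 then 7 + 4 * (14 - i.val) + rkK 1 k
    else rkK j k

/-- face label -/
def lab : Raw → ℕ
  | .inl (c, d) => lC c d
  | .inr (i, (j, k)) =>
    if lK j k < 14 then 28 + 14 * i.val + lK j k
    else if lK j k = 14 then 12 + i.val else 13 + i.val

/-- the vertex at which a dart starts, coded -/
def src : Raw → Vx
  | .inl (c, _) => .inl c
  | .inr (i, (j, _)) => kap i j

/-- first dart at a vertex -/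
def base : Vx → Raw
  | .inl c => .inl (c, (![2, 2, 8, 2, 0, 2, 0, 6, 2] : Fin 9 → Fin 9) c)
  | .inr (i, j) => .inr (i, ((![2, 3, 4, 5, 6, 7, 8, 9] : Fin 8 → Fin 10) j, (![1, 7, 2, 4, 2, 9, 1, 1] : Fin 8 → Fin 10) j))

/-- a dart on the face with a given label -/
def wit (n : ℕ) : Raw :=
  if n < 12 then .inl ((![(0, 3), (0, 4), (0, 5), (0, 6), (0, 7), (0, 8), (1, 3), (1, 4), (1, 5), (1, 6), (1, 7), (1, 8)] : Fin 12 → Fin 9 × Fin 9) (Fin.ofNat 12 n))
  else if n < 27 then .inr (Fin.ofNat 15 (n - 12), (0, 2))
  else if n = 27 then .inr (14, (1, 3))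
  else .inr (Fin.ofNat 15 ((n - 28) / 14), (![(0, 3), (0, 5), (0, 6), (1, 2), (1, 8), (1, 9), (2, 3), (2, 4), (2, 6), (2, 7), (3, 4), (3, 8), (4, 6), (7, 8)] : Fin 14 → Fin 10 × Fin 10) (Fin.ofNat 14 ((n - 28) % 14)))

theorem valid_rev : ∀ t : Raw, valid t = true → valid (rev t) = true := by
  decide +kernel

theorem valid_nxt : ∀ t : Raw, valid t = true → valid (nxt t) = true := by
  decide +kernel

theorem valid_prv : ∀ t : Raw, valid t = true → valid (prv t) = true := by
  decide +kernel

theorem prv_nxt : ∀ t : Raw, valid t = true → prv (nxt t) = t := by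
  decide +kernel

theorem nxt_prv : ∀ t : Raw, valid t = true → nxt (prv t) = t := by
  decide +kernel

theorem src_nxt : ∀ t : Raw, valid t = true → src (nxt t) = src t := by
  decide +kernel

theorem rk_zero : ∀ t : Raw, valid t = true → rk t = 0 → t = base (src t) := by
  decide +kernel

theorem rk_succ : ∀ t : Raw, valid t = true → rk t ≠ 0 → rk (prv t) + 1 = rk t := by
  decide +kernel

theorem lab_face : ∀ t : Raw, valid t = true → lab (nxt (rev t)) = lab t := by
  decide +kernel

theorem lab_lt : ∀ t : Raw, valid t = true → lab t < 238 := by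
  decide +kernel

theorem lab_wit : ∀ n < 238, valid (wit n) = true ∧ lab (wit n) = n := by
  decide +kernel

theorem card_valid : Fintype.card {t : Raw // valid t = true} = 734 := by
  decide +kernel

theorem noKK : ∀ j k : Fin 10, adjK j k = true → 2 ≤ j.val ∨ 2 ≤ k.val := by
  decide +kernel

end Pool.Agent.H29.Tor
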